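import Pool.Agent.Zk36.CO.Lim
import Pool.Agent.Zk80.CO.BIG
import Pool.Agent.Zk62.CO.SEPW
import Pool.Agent.Zk11.CO.MAT

/-!
# The exploration path outside of the near-critical window
-/

set_option autoImplicit false

namespace Pool.Agent.Zk36.CO

open H974 Finset H342P H984P H984N Filter Topology

/-- conditional probabilities at least `1/2 + ε`: the complementary arc -/
theorem up (R : Rect) :
    ∃ C c δ₀ : ℝ, 0 < C ∧ 0 < c ∧ 0 < δ₀ ∧ ∀ δ : ℝ, 0 < δ → δ ≤ δ₀ → ∀ ε : ℝ, 0 ≤ ε →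
      ε ≤ 1/2 → ∀ w : Finset Edg → ℝ, (∀ F ⊆ (R.dm δ).edges, 0 ≤ w F) →
      ∑ F ∈ (R.dm δ).edges.powerset, w F = 1 →
      (∀ e ∈ (R.dm δ).edges, ∀ F ⊆ (R.dm δ).edges, e ∉ F →
        (1/2 + ε) * (w (insert e F) + w F) ≤ w (insert e F)) →
      ∀ ρ : ℝ, 0 < ρ → ρ ≤ 1 → ∑ F ∈ (R.dm δ).edges.powerset,
        w F * ind (ρ < H342L.cdist (R.curve δ F) (arcR R)) ≤
          C / ρ ^ 2 * Real.exp (-(c * (ρ * (ε ^ (4/3 : ℝ) / δ)))) :=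
  right_main (t_DBIG Pool.Agent.Zk80.CO.t_BIG) Pool.Agent.Zk11.CO.t_MAT t_SEP R

/-- conditional probabilities at most `1/2 - ε`: the wired arc -/
theorem down (R : Rect) :
    ∃ C c δ₀ : ℝ, 0 < C ∧ 0 < c ∧ 0 < δ₀ ∧ ∀ δ : ℝ, 0 < δ → δ ≤ δ₀ → ∀ ε : ℝ, 0 ≤ ε →
      ε ≤ 1/2 → ∀ w : Finset Edg → ℝ, (∀ F ⊆ (R.dm δ).edges, 0 ≤ w F) →
      ∑ F ∈ (R.dm δ).edges.powerset, w F = 1 →
      (∀ e ∈ (R.dm δ).edges, ∀ F ⊆ (R.dm δ).edges, e ∉ F →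
        w (insert e F) ≤ (1/2 - ε) * (w (insert e F) + w F)) →
      ∀ ρ : ℝ, 0 < ρ → ρ ≤ 1 → ∑ F ∈ (R.dm δ).edges.powerset,
        w F * ind (ρ < H342L.cdist (R.curve δ F) (arcL R)) ≤
          C / ρ ^ 2 * Real.exp (-(c * (ρ * (ε ^ (4/3 : ℝ) / δ)))) :=
  left_main Pool.Agent.Zk80.CO.t_BIG Pool.Agent.Zk11.CO.t_MAT Pool.Agent.Zk62.CO.t_SEPW R

theorem ind_anti {ρ ρ' x : ℝ} (h : ρ ≤ ρ') : ind (ρ' < x) ≤ ind (ρ < x) :=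
  ind_mono fun h' => lt_of_le_of_lt h h'

/-- limit form -/
theorem up_lim (R : Rect) (δ ε : ℕ → ℝ) (w : ℕ → Finset Edg → ℝ) (hδ : ∀ n, 0 < δ n)
    (hδ0 : Tendsto δ atTop (𝓝 0)) (hε : ∀ n, 0 ≤ ε n) (hε1 : ∀ n, ε n ≤ 1/2)
    (h : Tendsto (fun n => ε n * δ n ^ (-(3/4 : ℝ))) atTop atTop)
    (hw : ∀ n, ∀ F ⊆ (R.dm (δ n)).edges, 0 ≤ w n F)
    (hw1 : ∀ n, ∑ F ∈ (R.dm (δ n)).edges.powerset, w n F = 1)
    (hc : ∀ n, ∀ e ∈ (R.dm (δ n)).edges, ∀ F ⊆ (R.dm (δ n)).edges, e ∉ F →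
        (1/2 + ε n) * (w n (insert e F) + w n F) ≤ w n (insert e F)) :
    ∀ ρ : ℝ, 0 < ρ → Tendsto (fun n => ∑ F ∈ (R.dm (δ n)).edges.powerset,
        w n F * ind (ρ < H342L.cdist (R.curve (δ n) F) (arcR R))) atTop (𝓝 0) := by
  obtain ⟨C, c, δ₀, _, hcc, hδ₀, hb⟩ := up R
  refine lim_of (C := C) (x := fun n ρ => ∑ F ∈ (R.dm (δ n)).edges.powerset,
        w n F * ind (ρ < H342L.cdist (R.curve (δ n) F) (arcR R))) hcc hδ₀ hδ hδ0 hε h ?_ ?_ ?_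
  · intro n ρ
    exact Finset.sum_nonneg fun F hF =>
      mul_nonneg (hw n F (Finset.mem_powerset.1 hF)) (ind_nonneg _)
  · intro n ρ ρ' hρ
    exact Finset.sum_le_sum fun F hF =>
      mul_le_mul_of_nonneg_left (ind_anti hρ) (hw n F (Finset.mem_powerset.1 hF))
  · intro n hn ρ hρ hρ1
    exact hb (δ n) (hδ n) hn (ε n) (hε n) (hε1 n) (w n) (hw n) (hw1 n) (hc n) ρ hρ hρ1

/-- limit form -/
theorem down_lim (R : Rect) (δ ε : ℕ → ℝ) (w : ℕ → Finset Edg → ℝ) (hδ : ∀ n, 0 < δ n)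
    (hδ0 : Tendsto δ atTop (𝓝 0)) (hε : ∀ n, 0 ≤ ε n) (hε1 : ∀ n, ε n ≤ 1/2)
    (h : Tendsto (fun n => ε n * δ n ^ (-(3/4 : ℝ))) atTop atTop)
    (hw : ∀ n, ∀ F ⊆ (R.dm (δ n)).edges, 0 ≤ w n F)
    (hw1 : ∀ n, ∑ F ∈ (R.dm (δ n)).edges.powerset, w n F = 1)
    (hc : ∀ n, ∀ e ∈ (R.dm (δ n)).edges, ∀ F ⊆ (R.dm (δ n)).edges, e ∉ F →
        w n (insert e F) ≤ (1/2 - ε n) * (w n (insert e F) + w n F)) :
    ∀ ρ : ℝ, 0 < ρ → Tendsto (fun n => ∑ F ∈ (R.dm (δ n)).edges.powerset,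
        w n F * ind (ρ < H342L.cdist (R.curve (δ n) F) (arcL R))) atTop (𝓝 0) := by
  obtain ⟨C, c, δ₀, _, hcc, hδ₀, hb⟩ := down R
  refine lim_of (C := C) (x := fun n ρ => ∑ F ∈ (R.dm (δ n)).edges.powerset,
        w n F * ind (ρ < H342L.cdist (R.curve (δ n) F) (arcL R))) hcc hδ₀ hδ hδ0 hε h ?_ ?_ ?_
  · intro n ρ
    exact Finset.sum_nonneg fun F hF =>
      mul_nonneg (hw n F (Finset.mem_powerset.1 hF)) (ind_nonneg _)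
  · intro n ρ ρ' hρ
    exact Finset.sum_le_sum fun F hF =>
      mul_le_mul_of_nonneg_left (ind_anti hρ) (hw n F (Finset.mem_powerset.1 hF))
  · intro n hn ρ hρ hρ1
    exact hb (δ n) (hδ n) hn (ε n) (hε n) (hε1 n) (w n) (hw n) (hw1 n) (hc n) ρ hρ hρ1

end Pool.Agent.Zk36.CO
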