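import Pool.Agent.Zk36.CO.NEC2
import Pool.Agent.TH291.NW.Rct

/-!
# The near-critical window is optimal
-/

set_option autoImplicit false

namespace Pool.Agent.Zk36.CO

open H974 Finset H342P H984P H984N Filter Topology

theorem t_LOW : S_LOW := by
  intro K hK
  obtain ⟨c, _, hc, _, h⟩ := TH291.NW.cross_window K hK
  exact ⟨c, hc, fun w h' hw hh1 hwh hhw q h0 h1 => (h w h' hw hh1 hwh hhw q h0 h1).1⟩

/-- If, for all rectangles and all Lipschitz functions of the curve, the expectations at `p n` and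
at `1/2` are close, then `|p n - 1/2| δ^(-3/4)` tends to zero. -/
theorem necessity (δ p : ℕ → ℝ) (hδ : ∀ n, 0 < δ n) (hδ0 : Tendsto δ atTop (𝓝 0))
    (hp : ∀ n, 0 ≤ p n ∧ p n ≤ 1)
    (h : ∀ (R : Rect) (f : H342L.Curve → ℝ), (∃ K : ℝ, ∀ x y, |f x - f y| ≤ K * dist x y) →
      (∀ x, 0 ≤ f x ∧ f x ≤ 1) →
      Tendsto (fun n => Ex (fun _ => p n) (R.dm (δ n)).edges (fun F => f ⟨R.curve (δ n) F⟩) -
        E (R.dm (δ n)).edges (fun F => f ⟨R.curve (δ n) F⟩)) atTop (𝓝 0)) :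
    Tendsto (fun n => |p n - 1/2| * δ n ^ (-(3/4 : ℝ))) atTop (𝓝 0) :=
  nec t_LOW δ p hδ hδ0 hp h

end Pool.Agent.Zk36.CO
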