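import Pool.Agent.Zk36.CO.DET

/-!
# The exploration path outside of the near-critical window: long closed dual paths
-/

set_option autoImplicit false

namespace Pool.Agent.Zk36.CO

open H974 Finset H342P H984P H984N

theorem okq {q : ℝ} (h0 : 0 ≤ q) (h1 : q ≤ 1) : Ok (fun _ : Edg => q) := fun _ => ⟨h0, h1⟩

theorem t_DBIG (h : S_BIG) : S_DBIG := by
  obtain ⟨c, C, hc, hC, h⟩ := h
  refine ⟨c, 4 * C, hc, by positivity, ?_⟩
  intro q a b u v n m h0 h1 hm hn hab huv
  have hm0 : (0:ℝ) < m := by exact_mod_cast hm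
  have h2 : dmp (RE a b u v) ⊆ RE (a - 1) b (u - 1) v := by
    rintro ⟨x, y, _ | _⟩ he
    · rw [mem_dmp, dls_f, mem_RE_true] at he
      rw [mem_RE_false]
      omega
    · rw [mem_dmp, dls_t, mem_RE_false] at he
      rw [mem_RE_true]
      omega
  have h3 : Pr (fun _ => 1 - q) (RE a b u v) (DBig (RE a b u v) m) =
      Pr (fun _ => q) (dmp (RE a b u v)) (Big m) := by
    rw [pr_dmp]
    have h4 : (fun _ : Edg => q) = fun e => 1 - (fun _ : Edg => 1 - q) e := by
      funext e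
      ring
    conv_rhs => rw [h4]
    rw [Pr_compl (fun _ : Edg => 1 - q) (RE a b u v) (fun F => Big m (dmp F))]
    apply Pr_congr
    intro F _
    unfold Big DBig
    rw [coe_dmp]
    simp only [reach_dl]
  have h5 : Pr (fun _ => q) (dmp (RE a b u v)) (Big m) ≤
      Pr (fun _ => q) (RE (a - 1) b (u - 1) v) (Big m) := by
    apply Pr_mono_set (okq h0 (by linarith)) h2
    rintro F G hFG _ ⟨x, y, hx, hr⟩
    exact ⟨x, y, hx, hr.mono (by exact_mod_cast hFG)⟩
  have h6 := h q (a - 1) b (u - 1) v (n + 1) m h0 h1 hm (by linarith)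
    (by push_cast at hab ⊢; linarith) (by push_cast at huv ⊢; linarith)
  rw [h3]
  refine (h5.trans h6).trans ?_
  have hm1 : (1:ℝ) ≤ m := by exact_mod_cast hm
  have h7 : (n + 1 + m) / (m:ℝ) ≤ 2 * ((n + m) / m) := by
    rw [mul_div_assoc']
    apply div_le_div_of_nonneg_right _ hm0.le
    linarith
  have h8 : ((n + 1 + m) / (m:ℝ)) ^ 2 ≤ 4 * ((n + m) / m) ^ 2 := by
    have h9 : 0 ≤ (n + 1 + m) / (m:ℝ) := by positivity
    calc ((n + 1 + m) / (m:ℝ)) ^ 2 ≤ (2 * ((n + m) / m)) ^ 2 := pow_le_pow_left₀ h9 h7 2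
      _ = _ := by ring
  have h10 : 0 ≤ Real.exp (-(c * (m * (1/2 - q) ^ (4/3 : ℝ)))) := (Real.exp_pos _).le
  apply mul_le_mul_of_nonneg_right _ h10
  nlinarith

end Pool.Agent.Zk36.CO
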