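import Pool.Agent.Zk36.CO.Defs

/-!
# The exploration path outside of the near-critical window: the path follows the complementary arc
-/

set_option autoImplicit false

namespace Pool.Agent.Zk36.CO

open H974 Finset H342P H984P H984N

variable {D : Dm} {F : Finset Edg}

theorem c_sd_le {u v : Vtx} {k : ℤ} : sd u v ≤ k ↔
    (u.1 - k ≤ v.1 ∧ v.1 ≤ u.1 + k) ∧ (u.2 - k ≤ v.2 ∧ v.2 ≤ u.2 + k) := by
  unfold sd
  rw [max_le_iff, abs_le, abs_le]
  omega

theorem c_sd_lt {u v : Vtx} {k : ℤ} : sd u v < k ↔
    (u.1 - k < v.1 ∧ v.1 < u.1 + k) ∧ (u.2 - k < v.2 ∧ v.2 < u.2 + k) := by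
  unfold sd
  rw [max_lt_iff, abs_lt, abs_lt]
  omega

theorem idx_top (D : Dm) (x : ℤ) : idx D (x, D.h) = x - D.t := by
  unfold idx
  rw [if_pos rfl]

theorem idx_right (D : Dm) {y : ℤ} (hy : y < D.h) :
    idx D (D.r, y) = (D.r - D.t) + (D.h - y - 1) := by
  unfold idx
  rw [if_neg (by simp only; omega), if_pos rfl]

theorem idx_bot (hD : D.Ok) {x : ℤ} (hx : x < D.r) :
    idx D (x, -1) = (D.r - D.t) + D.h + (D.r - x - 1) := by
  have := hD.h_pos
  unfold idx
  rw [if_neg (by simp only; omega), if_neg (by simp only; omega)]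

theorem av_top (D : Dm) {j : ℤ} (hj : j ≤ D.r - D.t) : av D j = (D.t + j, D.h) := by
  unfold av
  rw [if_pos hj]

theorem av_right (D : Dm) {j : ℤ} (h1 : D.r - D.t ≤ j) (h2 : j ≤ (D.r - D.t) + D.h) :
    av D j = (D.r, D.h - (j - (D.r - D.t))) := by
  unfold av
  split_ifs with h
  · have : j = D.r - D.t := le_antisymm h h1
    subst this
    simp
  · rfl

theorem av_bot (D : Dm) {j : ℤ} (h0 : 0 ≤ D.h) (h1 : (D.r - D.t) + D.h ≤ j) :
    av D j = (D.r - (j - (D.r - D.t) - D.h), 0) := by
  unfold av
  split_ifs with h h'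
  · have e1 : D.h = 0 := by omega
    have e2 : j = D.r - D.t := by omega
    subst e2
    rw [e1]
    simp
  · have : j = (D.r - D.t) + D.h := le_antisymm h' h1
    subst this
    simp
  · rfl

/-- a rotation at a vertex of the complementary arc -/
theorem rot (hD : D.Ok) {σ : St} (hv : inR D.l D.r 0 D.h σ.1) (hf : face σ ∈ D.outer)
    (he : ae σ ∉ D.edges) (hs : σ ≠ Dm.stop) :
    face (rt σ) ∈ D.outer ∧ (0 ≤ idx D (face (rt σ)) ∧ idx D (face (rt σ)) ≤ LR D) ∧
      av D (idx D (face (rt σ))) = σ.1 ∧ idx D (face σ) ≤ idx D (face (rt σ)) ∧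
      idx D (face (rt σ)) ≤ idx D (face σ) + 1 := by
  have hD' := hD
  obtain ⟨h1, h2, h3, h4, h5⟩ := hD
  obtain ⟨⟨x, y⟩, q⟩ := σ
  unfold inR at hv
  unfold Dm.edges at he
  unfold Dm.stop at hs
  unfold Dm.outer at hf ⊢
  simp only [Set.mem_ofPred_eq] at hf ⊢
  cases q
  · simp only [ae_ne, mem_RE_true, rt_ne, face_se, face_ne] at he hf hv ⊢
    have hx : x = D.r := by omega
    subst hx
    refine ⟨by omega, ?_⟩
    rw [idx_right D (y := y - 1) (by omega), av_right D (by omega) (by omega)]
    rcases eq_or_lt_of_le hv.2.2 with hy | hy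
    · subst hy
      rw [idx_top]
      unfold LR
      simp only [Prod.mk.injEq, true_and]
      omega
    · rw [idx_right D hy]
      unfold LR
      simp only [Prod.mk.injEq, true_and]
      omega
  · simp only [ae_nw, mem_RE_false, rt_nw, face_nw, face_ne] at he hf hv ⊢
    have hy : y = D.h := by omega
    subst hy
    refine ⟨by omega, ?_⟩
    rw [idx_top, idx_top, av_top D (by omega)]
    unfold LR
    simp only [Prod.mk.injEq, and_true]
    omega
  · simp only [ae_sw, mem_RE_true, rt_sw, face_nw, face_sw] at he hf hv ⊢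
    omega
  · simp only [ae_se, mem_RE_false, rt_se, face_se, face_sw] at he hf hv ⊢
    have h6 : ¬ (x = 0 ∧ y = 0) := by
      rintro ⟨rfl, rfl⟩
      exact hs rfl
    have hy : y = 0 := by omega
    subst hy
    refine ⟨by omega, ?_⟩
    have e1 : (0:ℤ) - 1 = -1 := by norm_num
    rw [e1]
    rw [idx_bot hD' (x := x - 1) (by omega), av_bot D h3.le (by omega)]
    rcases eq_or_lt_of_le hv.1.2 with hx | hx
    · subst hx
      rw [idx_right D (by omega)]
      unfold LR
      simp only [Prod.mk.injEq, and_true]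
      omega
    · rw [idx_bot hD' hx]
      unfold LR
      simp only [Prod.mk.injEq, and_true]
      omega

theorem DC_symm {g g' : Vtx} (h : DC D F g g') : DC D F g' g := DReach.symm h

theorem DC_trans {g g' g'' : Vtx} (h : DC D F g g') (h' : DC D F g' g'') : DC D F g g'' :=
  DReach.trans h h'

/-- the steps of the path, seen from the dual clusters -/
theorem step_cases (hD : D.Ok) (hF : F ⊆ D.edges) {k : ℕ} (hk : k < D.len F) :
    DC D F (face (D.walk F k)) (face (D.walk F (k + 1))) ∨
    (face (D.walk F k) ∈ D.outer ∧ face (D.walk F (k + 1)) ∈ D.outer ∧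
      (0 ≤ idx D (face (D.walk F (k + 1))) ∧ idx D (face (D.walk F (k + 1))) ≤ LR D) ∧
      av D (idx D (face (D.walk F (k + 1)))) = (D.walk F k).1 ∧
      idx D (face (D.walk F k)) ≤ idx D (face (D.walk F (k + 1))) ∧
      idx D (face (D.walk F (k + 1))) ≤ idx D (face (D.walk F k)) + 1) := by
  have hw := walk_clu hD hF hk.le
  rw [clu_walk_succ]
  by_cases h : ae (D.walk F k) ∈ D.cfg F
  · left
    rw [nxt_open h, p2_face_mv]
    exact DReach.refl _ _
  · rw [nxt_closed h]
    by_cases he : ae (D.walk F k) ∈ D.edges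
    · left
      exact DAdj.reach ⟨ae (D.walk F k), ⟨he, h⟩, p2_dends _⟩
    · right
      have hf : face (D.walk F k) ∈ D.outer := by
        rcases walk_closed hD hF hk h with h1 | h1
        · exact absurd h1 he
        · exact h1
      exact ⟨hf, rot hD (clu_inR hD hF hw.1) hf he (clu_ne_stop hk)⟩

open Classical in
/-- the anchor: the last outer face before time `k` in the dual cluster of the present face -/
noncomputable def anc (D : Dm) (F : Finset Edg) : ℕ → Vtx
  | 0 => (D.t, D.h)
  | k + 1 => if DC D F (face (D.walk F k)) (face (D.walk F (k + 1))) then anc D F k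
      else face (D.walk F (k + 1))

theorem idx_outer (hD : D.Ok) {g : Vtx} (hg : g ∈ D.outer) :
    0 ≤ idx D g ∧ idx D g ≤ LR D - 1 ∧ sd (av D (idx D g)) g ≤ 1 := by
  obtain ⟨h1, h2, h3, h4, h5⟩ := hD
  obtain ⟨x, y⟩ := g
  unfold Dm.outer at hg
  simp only [Set.mem_ofPred_eq] at hg
  rw [c_sd_le]
  unfold idx av LR
  simp only
  split_ifs <;> simp only <;> omega

theorem idx_near (hD : D.Ok) {g g' : Vtx} (hg : g ∈ D.outer) (hg' : g' ∈ D.outer) {m : ℕ}
    (hm : (m : ℤ) ≤ D.h) (h : sd g g' < m) : idx D g' ≤ idx D g + 2 * m := by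
  obtain ⟨h1, h2, h3, h4, h5⟩ := hD
  obtain ⟨x, y⟩ := g
  obtain ⟨x', y'⟩ := g'
  unfold Dm.outer at hg hg'
  simp only [Set.mem_ofPred_eq] at hg hg'
  rw [c_sd_lt] at h
  simp only at h
  unfold idx
  simp only
  split_ifs <;> omega

theorem face_near (σ : St) : sd (face σ) σ.1 ≤ 1 := by
  obtain ⟨⟨x, y⟩, q⟩ := σ
  rw [c_sd_le]
  cases q
  · simp only [face_ne]; omega
  · simp only [face_nw]; omega
  · simp only [face_sw]; omega
  · simp only [face_se]; omega

theorem anc_prop (hD : D.Ok) (hF : F ⊆ D.edges) : ∀ k ≤ D.len F,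
    anc D F k ∈ D.outer ∧ DC D F (anc D F k) (face (D.walk F k)) ∧
      av D (idx D (anc D F k)) ∈ D.clu F := by
  intro k
  induction k with
  | zero =>
    intro _
    have e : D.walk F 0 = D.start := rfl
    rw [e]
    refine ⟨Or.inr (Or.inr ⟨rfl, le_rfl, hD.le_r⟩), DReach.refl _ _, ?_⟩
    have e2 : av D (idx D (anc D F 0)) = (D.t, D.h) := by
      unfold anc idx av
      have := hD.le_r
      rw [if_pos rfl, if_pos (by simp only; omega)]
      simp
    rw [e2]
    exact clu_start hD F
  | succ k ih =>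
    intro hk
    obtain ⟨i1, i2, i3⟩ := ih (by omega)
    unfold anc
    by_cases h : DC D F (face (D.walk F k)) (face (D.walk F (k + 1)))
    · rw [if_pos h]
      exact ⟨i1, DC_trans i2 h, i3⟩
    · rw [if_neg h]
      obtain ⟨_, h2, _, h4, _, _⟩ := (step_cases hD hF (show k < D.len F by omega)).resolve_left h
      refine ⟨h2, DReach.refl _ _, ?_⟩
      rw [h4]
      exact (walk_clu hD hF (show k ≤ D.len F by omega)).1

theorem anc_step (hS : S_SEP) (hD : D.Ok) (hF : F ⊆ D.edges) {m : ℕ} (hm : (m : ℤ) ≤ D.h)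
    (hsm : ∀ g ∈ D.outer, ∀ f, DC D F g f → sd g f < m) {k : ℕ} (hk : k < D.len F) :
    idx D (anc D F k) ≤ idx D (anc D F (k + 1)) ∧
      idx D (anc D F (k + 1)) ≤ idx D (anc D F k) + (2 * m + 1) := by
  obtain ⟨i1, i2, i3⟩ := anc_prop hD hF k hk.le
  have hm0 : (0:ℤ) ≤ m := Int.natCast_nonneg m
  by_cases h : DC D F (face (D.walk F k)) (face (D.walk F (k + 1)))
  · have e : anc D F (k + 1) = anc D F k := by
      conv_lhs => unfold anc
      rw [if_pos h]
    rw [e]
    omega
  · obtain ⟨h1, h2, h3, h4, h5, h6⟩ := (step_cases hD hF hk).resolve_left h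
    have e : anc D F (k + 1) = face (D.walk F (k + 1)) := by
      conv_lhs => unfold anc
      rw [if_neg h]
    rw [e]
    have j1 := idx_outer hD i1
    have j2 : idx D (anc D F k) ≤ idx D (face (D.walk F k)) := by
      by_contra hc
      push Not at hc
      exact hS D hD F hF _ h1 _ i1 (idx D (anc D F k)) j1.1 (by omega) i3 hc le_rfl
        (DC_symm i2)
    have j3 := idx_near hD i1 h1 hm (hsm _ i1 _ i2)
    omega

theorem t_DET (hS : S_SEP) : S_DET := by
  intro D hD F hF m hm hsm
  have hlen : D.walk F (D.len F) = Dm.stop := walk_len hD hF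
  have hm0 : (0:ℤ) ≤ m := Int.natCast_nonneg m
  have hpos : 0 < D.len F := by
    rcases Nat.eq_zero_or_pos (D.len F) with h | h
    · rw [h] at hlen
      have e : D.walk F 0 = D.start := rfl
      rw [e] at hlen
      have := congrArg (fun σ : St => σ.1.2) hlen
      have h3 := hD.h_pos
      simp only [Dm.start, Dm.stop] at this
      omega
    · exact h
  have hLR : ∀ k < D.len F, idx D (anc D F k) ≤ LR D - 1 := fun k hk =>
    (idx_outer hD (anc_prop hD hF k hk.le).1).2.1
  refine ⟨fun k => if k < D.len F then idx D (anc D F k) else LR D, ?_, ?_, ?_, ?_, ?_⟩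
  · rw [if_pos hpos]
    unfold anc idx
    simp
  · rw [if_neg (lt_irrefl _)]
  · intro k hk
    rw [if_pos hk]
    split_ifs with h
    · exact (anc_step hS hD hF hm hsm hk).1
    · have := hLR k hk
      omega
  · intro k hk
    rw [if_pos hk]
    split_ifs with h
    · have := (anc_step hS hD hF hm hsm hk).2
      omega
    · have hkl : k + 1 = D.len F := by omega
      have h1 := (anc_step hS hD hF hm hsm hk).2
      obtain ⟨i1, i2, i3⟩ := anc_prop hD hF (k + 1) hk
      have hst : face (D.walk F (k + 1)) = (0, -1) := by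
        rw [hkl, hlen]
        rfl
      rw [hst] at i2
      have ho : ((0, -1) : Vtx) ∈ D.outer := Or.inl ⟨rfl, le_rfl, hD.r_pos.le⟩
      have h2 := idx_near hD i1 ho hm (hsm _ i1 _ i2)
      have h3 : idx D (0, -1) = LR D - 1 := by
        have g1 := hD.h_pos
        have g2 := hD.r_pos
        unfold idx LR
        simp only
        rw [if_neg (by omega), if_neg (by omega)]
        ring
      -- the last step is a rotation or not
      by_cases h : DC D F (face (D.walk F k)) (face (D.walk F (k + 1)))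
      · have e : anc D F (k + 1) = anc D F k := by
          conv_lhs => unfold anc
          rw [if_pos h]
        rw [e] at h2
        omega
      · have e : anc D F (k + 1) = face (D.walk F (k + 1)) := by
          conv_lhs => unfold anc
          rw [if_neg h]
        rw [e, hst] at h1
        omega
  · intro k hk
    split_ifs with h
    · obtain ⟨i1, i2, _⟩ := anc_prop hD hF k hk
      have h1 := (idx_outer hD i1).2.2
      have h2 := hsm _ i1 _ i2
      have h3 := face_near (D.walk F k)
      rw [c_sd_le] at h1 h3 ⊢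
      rw [c_sd_lt] at h2
      omega
    · have hkl : k = D.len F := by omega
      rw [hkl, hlen]
      have e : av D (LR D) = (0, 0) := by
        have g1 := hD.h_pos
        have g2 := hD.r_pos
        unfold av LR
        rw [if_neg (by omega), if_neg (by omega)]
        simp only [Prod.mk.injEq, and_true]
        ring
      rw [e, c_sd_le]
      simp only [Dm.stop]
      omega

end Pool.Agent.Zk36.CO
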