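import Pool.Agent.Zk36.CO.DET

/-!
# The exploration path outside of the near-critical window: the path follows the wired arc
-/

set_option autoImplicit false

namespace Pool.Agent.Zk36.CO

open H974 Finset H342P H984P H984N

variable {D : Dm} {F : Finset Edg}

theorem wv_top (D : Dm) {j : ℤ} (hj : j ≤ D.t - D.l) : wv D j = (D.t - j, D.h) := by
  unfold wv
  rw [if_pos hj]

theorem wv_left (D : Dm) {j : ℤ} (h1 : D.t - D.l ≤ j) (h2 : j ≤ (D.t - D.l) + D.h) :
    wv D j = (D.l, D.h - (j - (D.t - D.l))) := by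
  unfold wv
  split_ifs with h
  · have : j = D.t - D.l := le_antisymm h h1
    subst this
    simp
  · rfl

theorem wv_bot (D : Dm) {j : ℤ} (h0 : 0 ≤ D.h) (h1 : (D.t - D.l) + D.h ≤ j) :
    wv D j = (D.l + (j - (D.t - D.l) - D.h), 0) := by
  unfold wv
  split_ifs with h h'
  · have e1 : D.h = 0 := by omega
    have e2 : j = D.t - D.l := by omega
    subst e2
    rw [e1]
    simp
  · have : j = (D.t - D.l) + D.h := le_antisymm h' h1
    subst this
    simp
  · rfl

theorem PC_symm {v w : Vtx} (h : PC D F v w) : PC D F w v := Reach.symm h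

theorem PC_trans {u v w : Vtx} (h : PC D F u v) (h' : PC D F v w) : PC D F u w :=
  Reach.trans h h'

/-- a step along the wired arc -/
theorem mvw (hD : D.Ok) {σ : St} (hf : face σ ∈ D.dclu F) (he : ae σ ∈ D.wir) :
    ∃ j, 0 ≤ j ∧ j + 1 ≤ LW D ∧ wv D j = σ.1 ∧ wv D (j + 1) = (mv σ).1 ∧ fw D j = face σ := by
  have hf' := dclu_in hD hf
  obtain ⟨h1, h2, h3, h4, h5⟩ := hD
  obtain ⟨⟨x, y⟩, q⟩ := σ
  unfold Dm.wir at he
  unfold Dm.outer at hf'
  simp only [Set.mem_ofPred_eq] at hf' he
  cases q
  · simp only [ae_ne, face_ne, mv_ne] at he hf' ⊢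
    simp at he
    have hy : y = 0 := by omega
    subst hy
    refine ⟨(D.t - D.l) + D.h + (x - D.l), by omega, by unfold LW; omega, ?_, ?_, ?_⟩
    · rw [wv_bot D h3.le (by omega)]
      simp only [Prod.mk.injEq, and_true]
      omega
    · rw [wv_bot D h3.le (by omega)]
      simp only [Prod.mk.injEq, and_true]
      omega
    · unfold fw
      rw [if_neg (by omega), if_neg (by omega)]
      simp only [Prod.mk.injEq, and_true]
      omega
  · simp only [ae_nw, face_nw] at he hf'
    simp at he
    omega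
  · simp only [ae_sw, face_sw, mv_sw] at he hf' ⊢
    simp at he
    have hy : y = D.h := by omega
    subst hy
    refine ⟨D.t - x, by omega, by unfold LW; omega, ?_, ?_, ?_⟩
    · rw [wv_top D (by omega)]
      simp only [Prod.mk.injEq, and_true]
      omega
    · rw [wv_top D (by omega)]
      simp only [Prod.mk.injEq, and_true]
      omega
    · unfold fw
      rw [if_pos (by omega)]
      simp only [Prod.mk.injEq, and_true]
      omega
  · simp only [ae_se, face_se, mv_se] at he hf' ⊢
    simp at he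
    have hx : x = D.l := by omega
    subst hx
    refine ⟨(D.t - D.l) + (D.h - y), by omega, by unfold LW; omega, ?_, ?_, ?_⟩
    · rw [wv_left D (by omega) (by omega)]
      simp only [Prod.mk.injEq, true_and]
      omega
    · rw [wv_left D (by omega) (by omega)]
      simp only [Prod.mk.injEq, true_and]
      omega
    · unfold fw
      rw [if_neg (by omega), if_pos (by omega)]
      simp only [Prod.mk.injEq, true_and]
      omega

/-- the steps of the path, seen from the open clusters -/
theorem stepW_cases (hD : D.Ok) (hF : F ⊆ D.edges) {k : ℕ} (hk : k < D.len F) :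
    PC D F (D.walk F k).1 (D.walk F (k + 1)).1 ∨
    ∃ j, 0 ≤ j ∧ j + 1 ≤ LW D ∧ wv D j = (D.walk F k).1 ∧ wv D (j + 1) = (D.walk F (k + 1)).1 ∧
      fw D j ∈ D.dclu F := by
  have hw := walk_clu hD hF hk.le
  rw [clu_walk_succ]
  by_cases h : ae (D.walk F k) ∈ D.cfg F
  · rw [nxt_open h]
    by_cases he : ae (D.walk F k) ∈ D.wir
    · right
      obtain ⟨j, j1, j2, j3, j4, j5⟩ := mvw hD hw.2 he
      exact ⟨j, j1, j2, j3, j4, by rw [j5]; exact hw.2⟩
    · left
      have h' : ae (D.walk F k) ∈ (↑F : Set Edg) := by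
        rcases h with h | h
        · exact h
        · exact absurd h he
      exact Adj.reach ⟨ae (D.walk F k), ⟨h', he⟩, p2_ends _⟩
  · left
    rw [nxt_closed h, p2_rt_fst]
    exact Reach.refl _ _

theorem ancW_ex (hD : D.Ok) (hF : F ⊆ D.edges) (k : ℕ) : ∃ j : ℤ, k < D.len F →
    ¬ PC D F (D.walk F k).1 (D.walk F (k + 1)).1 →
    (0 ≤ j ∧ j + 1 ≤ LW D ∧ wv D j = (D.walk F k).1 ∧ wv D (j + 1) = (D.walk F (k + 1)).1 ∧
      fw D j ∈ D.dclu F) := by
  by_cases hk : k < D.len F
  · rcases stepW_cases hD hF hk with h | ⟨j, h⟩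
    · exact ⟨0, fun _ h' => absurd h h'⟩
    · exact ⟨j, fun _ _ => h⟩
  · exact ⟨0, fun h => absurd h hk⟩

open Classical in
/-- the anchor: the last wired vertex before time `k` in the open cluster of the present vertex -/
noncomputable def ancW (D : Dm) (F : Finset Edg) (J : ℕ → ℤ) : ℕ → ℤ
  | 0 => 0
  | k + 1 => if PC D F (D.walk F k).1 (D.walk F (k + 1)).1 then ancW D F J k else J k + 1

theorem fw_zero_le (hD : D.Ok) : 0 ≤ LW D := by
  obtain ⟨h1, h2, h3, h4, h5⟩ := hD
  unfold LW
  omega

theorem wv_near (hD : D.Ok) {i i' : ℤ} (h0 : 0 ≤ i) (h0' : 0 ≤ i') (hL : i ≤ LW D)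
    (hL' : i' ≤ LW D) {m : ℕ} (hm : (m : ℤ) ≤ D.h) (h : sd (wv D i) (wv D i') < m) :
    i' ≤ i + 2 * m := by
  obtain ⟨h1, h2, h3, h4, h5⟩ := hD
  rw [c_sd_lt] at h
  unfold LW at hL hL'
  unfold wv at h
  split_ifs at h <;> simp only at h <;> omega

theorem t_DETW (hS : S_SEPW) : S_DETW := by
  intro D hD F hF m hm hsm
  have hlen : D.walk F (D.len F) = Dm.stop := walk_len hD hF
  have hm0 : (0:ℤ) ≤ m := Int.natCast_nonneg m
  have hpos : 0 < D.len F := by
    rcases Nat.eq_zero_or_pos (D.len F) with h | h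
    · rw [h] at hlen
      have e : D.walk F 0 = D.start := rfl
      rw [e] at hlen
      have := congrArg (fun σ : St => σ.1.2) hlen
      have h3 := hD.h_pos
      simp only [Dm.start, Dm.stop] at this
      omega
    · exact h
  choose J hJ using ancW_ex (D := D) (F := F) hD hF
  set A : ℕ → ℤ := ancW D F J with hA
  have hA0 : A 0 = 0 := rfl
  have hAt : ∀ k, PC D F (D.walk F k).1 (D.walk F (k + 1)).1 → A (k + 1) = A k := by
    intro k h
    rw [hA]
    conv_lhs => unfold ancW
    rw [if_pos h]
  have hAf : ∀ k, ¬ PC D F (D.walk F k).1 (D.walk F (k + 1)).1 → A (k + 1) = J k + 1 := by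
    intro k h
    rw [hA]
    conv_lhs => unfold ancW
    rw [if_neg h]
  have hLW := fw_zero_le hD
  have prop : ∀ k ≤ D.len F, (0 ≤ A k ∧ A k ≤ LW D) ∧ PC D F (wv D (A k)) (D.walk F k).1 ∧
      (A k = 0 ∨ fw D (A k - 1) ∈ D.dclu F) := by
    intro k
    induction k with
    | zero =>
      intro _
      rw [hA0]
      refine ⟨⟨le_rfl, hLW⟩, ?_, Or.inl rfl⟩
      have e : D.walk F 0 = D.start := rfl
      rw [e, wv_top D (by have := hD.l_le; omega)]
      have e2 : (D.t - 0, D.h) = D.start.1 := by
        unfold Dm.start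
        simp
      rw [e2]
      exact Reach.refl _ _
    | succ k ih =>
      intro hk
      obtain ⟨i1, i2, i3⟩ := ih (by omega)
      by_cases h : PC D F (D.walk F k).1 (D.walk F (k + 1)).1
      · rw [hAt k h]
        exact ⟨i1, PC_trans i2 h, i3⟩
      · rw [hAf k h]
        obtain ⟨j1, j2, j3, j4, j5⟩ := hJ k (by omega) h
        refine ⟨⟨by omega, j2⟩, ?_, Or.inr ?_⟩
        · rw [j4]
          exact Reach.refl _ _
        · rw [add_sub_cancel_right]
          exact j5
  have step : ∀ k < D.len F, A k ≤ A (k + 1) ∧ A (k + 1) ≤ A k + (2 * m + 1) := by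
    intro k hk
    obtain ⟨i1, i2, i3⟩ := prop k hk.le
    by_cases h : PC D F (D.walk F k).1 (D.walk F (k + 1)).1
    · rw [hAt k h]
      omega
    · rw [hAf k h]
      obtain ⟨j1, j2, j3, j4, j5⟩ := hJ k hk h
      rw [← j3] at i2
      have h1 : A k ≤ J k + 1 := by
        by_contra hc
        push Not at hc
        rcases i3 with i3 | i3
        · omega
        · exact hS D hD F hF (J k) (A k) (A k - 1) j1 (by omega) (by omega) i1.2 i3
            (PC_symm i2)
      have h2 := hsm (A k) i1.1 i1.2 _ i2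
      have h3 := wv_near hD i1.1 j1 i1.2 (by omega) hm h2
      omega
  refine ⟨fun k => if k < D.len F then A k else LW D, ?_, ?_, ?_, ?_, ?_⟩
  · rw [if_pos hpos]
    exact hA0
  · rw [if_neg (lt_irrefl _)]
  · intro k hk
    rw [if_pos hk]
    split_ifs with h
    · exact (step k hk).1
    · exact (prop k hk.le).1.2
  · intro k hk
    rw [if_pos hk]
    split_ifs with h
    · have := (step k hk).2
      omega
    · have hkl : k + 1 = D.len F := by omega
      obtain ⟨i1, i2, i3⟩ := prop (k + 1) hk
      have hst : (D.walk F (k + 1)).1 = wv D (LW D) := by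
        rw [hkl, hlen, wv_bot D hD.h_pos.le (by have := hD.l_neg; unfold LW; omega)]
        unfold LW Dm.stop
        simp only [Prod.mk.injEq, and_true]
        ring
      rw [hst] at i2
      have h2 := hsm (A (k + 1)) i1.1 i1.2 _ i2
      have h3 := wv_near hD i1.1 hLW i1.2 le_rfl hm h2
      by_cases h : PC D F (D.walk F k).1 (D.walk F (k + 1)).1
      · rw [hAt k h] at h3
        omega
      · have h4 := (step k hk).2
        rw [hAf k h] at h4 h3
        obtain ⟨j1, j2, j3, j4, j5⟩ := hJ k hk h
        -- the last vertex is number `LW D` only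
        have h5 : wv D (J k + 1) = wv D (LW D) := by rw [j4, hst]
        have h6 : J k + 1 = LW D := by
          obtain ⟨g1, g2, g3, g4, g5⟩ := hD
          have h7 := congrArg Prod.fst h5
          have h8 := congrArg Prod.snd h5
          unfold LW at *
          unfold wv at h7 h8
          split_ifs at h7 h8 <;> simp only at h7 h8 <;> omega
        omega
  · intro k hk
    split_ifs with h
    · obtain ⟨i1, i2, _⟩ := prop k hk
      have h2 := hsm _ i1.1 i1.2 _ i2
      omega
    · have hkl : k = D.len F := by omega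
      rw [hkl, hlen, wv_bot D hD.h_pos.le (by have := hD.l_neg; unfold LW; omega), c_sd_le]
      unfold LW Dm.stop
      simp only
      omega

end Pool.Agent.Zk36.CO
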