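import Pool.Agent.Zk72.NS.Stm
import Pool.Agent.H984R4.NP.ModelLem

/-!
# The exploration path outside of the near-critical window: definitions and statements of the parts
-/

set_option autoImplicit false

namespace Pool.Agent.Zk36.CO

open H974 Finset H342P H984P H984N

/-! ### The complementary arc (`p > 1/2`) -/

/-- Length of the complementary arc. -/
def LR (D : Dm) : ℤ := (D.r - D.t) + D.h + D.r

/-- Its vertex number `j`, from `(t, h)` clockwise to `(0, 0)`. -/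
def av (D : Dm) (j : ℤ) : Vtx :=
  if j ≤ D.r - D.t then (D.t + j, D.h)
  else if j ≤ (D.r - D.t) + D.h then (D.r, D.h - (j - (D.r - D.t)))
  else (D.r - (j - (D.r - D.t) - D.h), 0)

/-- Number of an outer face. -/
def idx (D : Dm) (g : Vtx) : ℤ :=
  if g.2 = D.h then g.1 - D.t
  else if g.1 = D.r then (D.r - D.t) + (D.h - g.2 - 1)
  else (D.r - D.t) + D.h + (D.r - g.1 - 1)

/-- closed dual paths which do not use the boundary condition -/
def DC (D : Dm) (F : Finset Edg) (g g' : Vtx) : Prop :=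
  DReach (↑D.edges \ D.cfg F : Set Edg) g g'

/-- SEP: a vertex of the complementary arc which is connected to the wired arc separates the outer
faces before it from the outer faces after it. -/
def S_SEP : Prop := ∀ (D : Dm), D.Ok → ∀ F ⊆ D.edges, ∀ g ∈ D.outer, ∀ g' ∈ D.outer, ∀ j : ℤ,
  0 ≤ j → j ≤ LR D → av D j ∈ D.clu F → idx D g < j → j ≤ idx D g' → ¬ DC D F g g'

/-- the position on the arc as a function of time -/
structure Fol (D : Dm) (F : Finset Edg) (m : ℕ) (L : ℤ) (a : ℤ → Vtx) (M : ℕ → ℤ) : Prop where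
  zero : M 0 = 0
  last : M (D.len F) = L
  mono : ∀ k < D.len F, M k ≤ M (k + 1)
  jump : ∀ k < D.len F, M (k + 1) ≤ M k + (2 * m + 4)
  near : ∀ k ≤ D.len F, sd (a (M k)) (D.walk F k).1 ≤ 2 * m + 4

/-- DET: if the dual clusters of the outer faces are small, the exploration path follows the
complementary arc. -/
def S_DET : Prop := ∀ (D : Dm), D.Ok → ∀ F ⊆ D.edges, ∀ m : ℕ, (m : ℤ) ≤ D.h →
  (∀ g ∈ D.outer, ∀ f, DC D F g f → sd g f < m) → ∃ M, Fol D F m (LR D) (av D) M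

/-! ### The wired arc (`p < 1/2`) -/

/-- Length of the wired arc. -/
def LW (D : Dm) : ℤ := (D.t - D.l) + D.h - D.l

/-- Its vertex number `j`, from `(t, h)` counterclockwise to `(0, 0)`. -/
def wv (D : Dm) (j : ℤ) : Vtx :=
  if j ≤ D.t - D.l then (D.t - j, D.h)
  else if j ≤ (D.t - D.l) + D.h then (D.l, D.h - (j - (D.t - D.l)))
  else (D.l + (j - (D.t - D.l) - D.h), 0)

/-- The face inside next to the wired edge between the vertices number `j` and `j + 1`. -/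
def fw (D : Dm) (j : ℤ) : Vtx :=
  if j < D.t - D.l then (D.t - j - 1, D.h - 1)
  else if j < (D.t - D.l) + D.h then (D.l, D.h - (j - (D.t - D.l)) - 1)
  else (D.l + (j - (D.t - D.l) - D.h), 0)

/-- open paths which do not use the boundary condition -/
def PC (D : Dm) (F : Finset Edg) (v w : Vtx) : Prop :=
  Reach (↑F \ D.wir : Set Edg) v w

/-- SEPW: a face at the wired arc which is connected to the complementary arc by a closed dual path
separates the wired vertices before it from those after it. -/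
def S_SEPW : Prop := ∀ (D : Dm), D.Ok → ∀ F ⊆ D.edges, ∀ i i' j : ℤ, 0 ≤ i → i ≤ j → j < i' →
  i' ≤ LW D → fw D j ∈ D.dclu F → ¬ PC D F (wv D i) (wv D i')

/-- DETW: if the open clusters of the wired vertices are small, the exploration path follows the
wired arc. -/
def S_DETW : Prop := ∀ (D : Dm), D.Ok → ∀ F ⊆ D.edges, ∀ m : ℕ, (m : ℤ) ≤ D.h →
  (∀ i : ℤ, 0 ≤ i → i ≤ LW D → ∀ v, PC D F (wv D i) v → sd (wv D i) v < m) →
    ∃ M, Fol D F m (LW D) (wv D) M

/-! ### Curves -/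

/-- The polygonal curve through four points. -/
noncomputable def pol (z₀ z₁ z₂ z₃ : ℂ) : C(unitInterval, ℂ) :=
  pl 3 (fun k => match k with
    | 0 => z₀
    | 1 => z₁
    | 2 => z₂
    | _ => z₃)

/-- The complementary arc, from `a = t + i H` clockwise to `0`. -/
noncomputable def arcR (R : Rect) : C(unitInterval, ℂ) := pol R.a ⟨R.B, R.H⟩ ⟨R.B, 0⟩ 0

/-- The wired arc, from `a = t + i H` counterclockwise to `0`. -/
noncomputable def arcL (R : Rect) : C(unitInterval, ℂ) := pol R.a ⟨-R.A, R.H⟩ ⟨-R.A, 0⟩ 0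

/-- MAT: matching of the curves. -/
def S_MAT : Prop := ∀ R : Rect, ∃ C δ₀ : ℝ, 0 < C ∧ 0 < δ₀ ∧ ∀ δ : ℝ, 0 < δ → δ ≤ δ₀ →
  ∀ F ⊆ (R.dm δ).edges, ∀ (m : ℕ) (M : ℕ → ℤ),
    (Fol (R.dm δ) F m (LR (R.dm δ)) (av (R.dm δ)) M →
      H342L.cdist (R.curve δ F) (arcR R) ≤ C * (m + 1) * δ) ∧
    (Fol (R.dm δ) F m (LW (R.dm δ)) (wv (R.dm δ)) M →
      H342L.cdist (R.curve δ F) (arcL R) ≤ C * (m + 1) * δ)

/-! ### Probability -/

/-- a long open path -/
def Big (m : ℕ) (F : Finset Edg) : Prop :=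
  ∃ x y : Vtx, (m : ℤ) ≤ sd x y ∧ Reach (↑F : Set Edg) x y

/-- a long closed dual path in `S` -/
def DBig (S : Finset Edg) (m : ℕ) (F : Finset Edg) : Prop :=
  ∃ x y : Vtx, (m : ℤ) ≤ sd x y ∧ DReach (↑(S \ F) : Set Edg) x y

/-- BIG: long paths away from criticality. -/
def S_BIG : Prop := ∃ c C : ℝ, 0 < c ∧ 0 < C ∧ ∀ (q : ℝ) (a b u v : ℤ) (n : ℝ) (m : ℕ),
  0 ≤ q → q ≤ 1/2 → 1 ≤ m → 0 ≤ n → ((b - a : ℤ) : ℝ) ≤ n → ((v - u : ℤ) : ℝ) ≤ n →
  Pr (fun _ => q) (RE a b u v) (Big m) ≤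
    C * ((n + m) / m) ^ 2 * Real.exp (-(c * (m * (1/2 - q) ^ (4/3 : ℝ))))

/-- DBIG: the dual version. -/
def S_DBIG : Prop := ∃ c C : ℝ, 0 < c ∧ 0 < C ∧ ∀ (q : ℝ) (a b u v : ℤ) (n : ℝ) (m : ℕ),
  0 ≤ q → q ≤ 1/2 → 1 ≤ m → 0 ≤ n → ((b - a : ℤ) : ℝ) ≤ n → ((v - u : ℤ) : ℝ) ≤ n →
  Pr (fun _ => 1 - q) (RE a b u v) (DBig (RE a b u v) m) ≤
    C * ((n + m) / m) ^ 2 * Real.exp (-(c * (m * (1/2 - q) ^ (4/3 : ℝ))))

end Pool.Agent.Zk36.CO
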