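import Pool.Agent.Zk36.CO.SEP
import Pool.Agent.Zk36.CO.DETW
import Pool.Agent.Zk36.CO.DBIG

/-!
# The exploration path outside of the near-critical window: the bounds
-/

set_option autoImplicit false

namespace Pool.Agent.Zk36.CO

open H974 Finset H342P H984P H984N

/-! ### Domination -/

theorem dom_up {q : ℝ} (h0 : 0 ≤ q) (h1 : q ≤ 1) (S : Finset Edg) : ∀ (w f : Finset Edg → ℝ),
    (∀ e ∈ S, ∀ F ⊆ S, e ∉ F → q * (w (insert e F) + w F) ≤ w (insert e F)) →
    (∀ F G, F ⊆ G → G ⊆ S → f G ≤ f F) →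
    ∑ F ∈ S.powerset, w F * f F ≤ (∑ F ∈ S.powerset, w F) * Ex (fun _ => q) S f := by
  classical
  induction S using Finset.induction_on with
  | empty =>
    intro w f _ _
    rw [Ex_empty]
    simp
  | insert a S ha ih =>
    intro w f hw hf
    rw [Finset.sum_powerset_insert ha, Finset.sum_powerset_insert ha, Ex_insert _ ha]
    have h2 := ih (fun F => w (insert a F) + w F) (fun F => q * f (insert a F) + (1 - q) * f F)
      (by
        intro e he F hF heF
        have hea : e ≠ a := fun h => ha (h ▸ he)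
        have g1 := hw e (Finset.mem_insert_of_mem he) (insert a F)
          (Finset.insert_subset_insert a hF) (by
            rw [Finset.mem_insert, not_or]
            exact ⟨hea, heF⟩)
        have g2 := hw e (Finset.mem_insert_of_mem he) F
          (hF.trans (Finset.subset_insert a S)) heF
        rw [Finset.insert_comm e a F] at g1
        linarith)
      (by
        intro F G hFG hG
        have g1 := hf (insert a F) (insert a G) (Finset.insert_subset_insert a hFG)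
          (Finset.insert_subset_insert a hG)
        have g2 := hf F G hFG (hG.trans (Finset.subset_insert a S))
        have g3 := mul_le_mul_of_nonneg_left g1 h0
        have g4 := mul_le_mul_of_nonneg_left g2 (sub_nonneg.2 h1)
        linarith)
    have h3 : Ex (fun _ => q) S (fun F => q * f (insert a F) + (1 - q) * f F) =
        q * Ex (fun _ => q) S (fun F => f (insert a F)) + (1 - q) * Ex (fun _ => q) S f := by
      rw [Ex_add, Ex_mul_left, Ex_mul_left]
    rw [h3] at h2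
    have h4 : ∑ F ∈ S.powerset, w F * f F + ∑ F ∈ S.powerset, w (insert a F) * f (insert a F) ≤
        ∑ F ∈ S.powerset, (w (insert a F) + w F) * (q * f (insert a F) + (1 - q) * f F) := by
      rw [← Finset.sum_add_distrib]
      apply Finset.sum_le_sum
      intro F hF
      rw [Finset.mem_powerset] at hF
      have haF : a ∉ F := fun h => ha (hF h)
      have g1 := hw a (Finset.mem_insert_self a S) F (hF.trans (Finset.subset_insert a S)) haF
      have g2 := hf F (insert a F) (Finset.subset_insert a F) (Finset.insert_subset_insert a hF)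
      nlinarith [mul_nonneg (sub_nonneg.2 g1) (sub_nonneg.2 g2)]
    refine (h4.trans h2).trans (le_of_eq ?_)
    rw [Finset.sum_add_distrib]
    ring

theorem dom_down {q : ℝ} (h0 : 0 ≤ q) (h1 : q ≤ 1) (S : Finset Edg) : ∀ (w f : Finset Edg → ℝ),
    (∀ e ∈ S, ∀ F ⊆ S, e ∉ F → w (insert e F) ≤ q * (w (insert e F) + w F)) →
    (∀ F G, F ⊆ G → G ⊆ S → f F ≤ f G) →
    ∑ F ∈ S.powerset, w F * f F ≤ (∑ F ∈ S.powerset, w F) * Ex (fun _ => q) S f := by
  classical
  induction S using Finset.induction_on with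
  | empty =>
    intro w f _ _
    rw [Ex_empty]
    simp
  | insert a S ha ih =>
    intro w f hw hf
    rw [Finset.sum_powerset_insert ha, Finset.sum_powerset_insert ha, Ex_insert _ ha]
    have h2 := ih (fun F => w (insert a F) + w F) (fun F => q * f (insert a F) + (1 - q) * f F)
      (by
        intro e he F hF heF
        have hea : e ≠ a := fun h => ha (h ▸ he)
        have g1 := hw e (Finset.mem_insert_of_mem he) (insert a F)
          (Finset.insert_subset_insert a hF) (by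
            rw [Finset.mem_insert, not_or]
            exact ⟨hea, heF⟩)
        have g2 := hw e (Finset.mem_insert_of_mem he) F
          (hF.trans (Finset.subset_insert a S)) heF
        rw [Finset.insert_comm e a F] at g1
        linarith)
      (by
        intro F G hFG hG
        have g1 := hf (insert a F) (insert a G) (Finset.insert_subset_insert a hFG)
          (Finset.insert_subset_insert a hG)
        have g2 := hf F G hFG (hG.trans (Finset.subset_insert a S))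
        have g3 := mul_le_mul_of_nonneg_left g1 h0
        have g4 := mul_le_mul_of_nonneg_left g2 (sub_nonneg.2 h1)
        linarith)
    have h3 : Ex (fun _ => q) S (fun F => q * f (insert a F) + (1 - q) * f F) =
        q * Ex (fun _ => q) S (fun F => f (insert a F)) + (1 - q) * Ex (fun _ => q) S f := by
      rw [Ex_add, Ex_mul_left, Ex_mul_left]
    rw [h3] at h2
    have h4 : ∑ F ∈ S.powerset, w F * f F + ∑ F ∈ S.powerset, w (insert a F) * f (insert a F) ≤
        ∑ F ∈ S.powerset, (w (insert a F) + w F) * (q * f (insert a F) + (1 - q) * f F) := by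
      rw [← Finset.sum_add_distrib]
      apply Finset.sum_le_sum
      intro F hF
      rw [Finset.mem_powerset] at hF
      have haF : a ∉ F := fun h => ha (hF h)
      have g1 := hw a (Finset.mem_insert_self a S) F (hF.trans (Finset.subset_insert a S)) haF
      have g2 := hf F (insert a F) (Finset.subset_insert a F) (Finset.insert_subset_insert a hF)
      nlinarith [mul_nonneg (sub_nonneg.2 g1) (sub_nonneg.2 g2)]
    refine (h4.trans h2).trans (le_of_eq ?_)
    rw [Finset.sum_add_distrib]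
    ring

/-! ### From the lattice bound to the bound for the curves -/

theorem core {κ Sz C1 Cb cb : ℝ} (hκ : 0 < κ) (hSz : 0 < Sz) (hC1 : 0 < C1) (hCb : 0 < Cb)
    (hcb : 0 < cb) : ∃ C c : ℝ, 0 < C ∧ 0 < c ∧ ∀ (δ s : ℝ) (h : ℤ) (S : Finset Edg)
    (w x : Finset Edg → ℝ) (Bd : ℕ → Finset Edg → Prop), 0 < δ → 0 ≤ s → s ≤ 1 →
    κ * (Sz / δ) ≤ h → (∀ F ⊆ S, 0 ≤ w F) → ∑ F ∈ S.powerset, w F = 1 →
    (∀ m : ℕ, 1 ≤ m → (m : ℤ) ≤ h → ∀ F ⊆ S, C1 * (m + 1) * δ < x F → Bd m F) →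
    (∀ m : ℕ, 1 ≤ m → ∑ F ∈ S.powerset, w F * ind (Bd m F) ≤
      Cb * ((Sz / δ + m) / m) ^ 2 * Real.exp (-(cb * (m * s)))) →
    ∀ ρ : ℝ, 0 < ρ → ρ ≤ 1 → ∑ F ∈ S.powerset, w F * ind (ρ < x F) ≤
      C / ρ ^ 2 * Real.exp (-(c * (ρ * (s / δ)))) := by
  obtain ⟨C2, hC2⟩ : ∃ C2 : ℝ, C2 = max C1 (1 / (κ * Sz)) := ⟨_, rfl⟩
  have g1 : C1 ≤ C2 := hC2 ▸ le_max_left _ _
  have g2 : 1 / (κ * Sz) ≤ C2 := hC2 ▸ le_max_right _ _
  have hC20 : 0 < C2 := lt_of_lt_of_le hC1 g1
  refine ⟨Cb * (1 + 4 * C2 * Sz) ^ 2 + Real.exp (cb / 2), cb / (4 * C2), by positivity,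
    by positivity, ?_⟩
  intro δ s h S w x Bd hδ hs0 hs1 hh hw0 hw1 hdet hprob ρ hρ hρ1
  have hw0' : ∀ F ∈ S.powerset, 0 ≤ w F := fun F hF => hw0 F (Finset.mem_powerset.1 hF)
  obtain ⟨m, hm⟩ : ∃ m : ℕ, m = ⌊ρ / (2 * C2 * δ)⌋₊ := ⟨_, rfl⟩
  have hx0 : 0 ≤ ρ / (2 * C2 * δ) := by positivity
  have hρ2 : 1 ≤ 1 / ρ ^ 2 := by
    rw [le_div_iff₀ (by positivity)]
    nlinarith
  rcases Nat.eq_zero_or_pos m with hm0 | hm0
  · have h1 : ρ / (2 * C2 * δ) < 1 := by
      rw [hm] at hm0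
      exact Nat.floor_eq_zero.1 hm0
    rw [div_lt_one (by positivity)] at h1
    have h2 : ∑ F ∈ S.powerset, w F * ind (ρ < x F) ≤ 1 := by
      rw [← hw1]
      apply Finset.sum_le_sum
      intro F hF
      have := ind_le_one (ρ < x F)
      nlinarith [hw0' F hF]
    have h3 : cb / (4 * C2) * (ρ * (s / δ)) ≤ cb / 2 := by
      have h4 : ρ * (s / δ) ≤ 2 * C2 := by
        rw [mul_div_assoc', div_le_iff₀ hδ]
        nlinarith
      calc cb / (4 * C2) * (ρ * (s / δ)) ≤ cb / (4 * C2) * (2 * C2) :=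
            mul_le_mul_of_nonneg_left h4 (by positivity)
        _ = cb / 2 := by field_simp; norm_num
    have h5 : Real.exp (-(cb / 2)) ≤ Real.exp (-(cb / (4 * C2) * (ρ * (s / δ)))) :=
      Real.exp_le_exp.2 (by linarith)
    have h6 : (1:ℝ) = Real.exp (cb / 2) * Real.exp (-(cb / 2)) := by
      rw [← Real.exp_add]
      simp
    refine h2.trans ?_
    have h7 : 0 < Real.exp (cb / 2) := Real.exp_pos _
    have h8 : 0 < Real.exp (-(cb / 2)) := Real.exp_pos _
    have h9 : Real.exp (cb / 2) ≤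
        (Cb * (1 + 4 * C2 * Sz) ^ 2 + Real.exp (cb / 2)) / ρ ^ 2 := by
      have h10 : 0 ≤ Cb * (1 + 4 * C2 * Sz) ^ 2 := by positivity
      rw [le_div_iff₀ (by positivity)]
      have h11 : ρ ^ 2 ≤ 1 := by nlinarith
      nlinarith
    calc (1:ℝ) = Real.exp (cb / 2) * Real.exp (-(cb / 2)) := h6
      _ ≤ (Cb * (1 + 4 * C2 * Sz) ^ 2 + Real.exp (cb / 2)) / ρ ^ 2 *
          Real.exp (-(cb / (4 * C2) * (ρ * (s / δ)))) := mul_le_mul h9 h5 h8.le (by positivity)
  · have hmr : (1:ℝ) ≤ m := by exact_mod_cast hm0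
    have h1 : (m:ℝ) ≤ ρ / (2 * C2 * δ) := by
      rw [hm]
      exact Nat.floor_le hx0
    have h2 : ρ / (2 * C2 * δ) < m + 1 := by
      rw [hm]
      exact Nat.lt_floor_add_one _
    have h1' : m * (2 * C2 * δ) ≤ ρ := by rwa [le_div_iff₀ (by positivity)] at h1
    have h2' : ρ < (m + 1) * (2 * C2 * δ) := by rwa [div_lt_iff₀ (by positivity)] at h2
    have h3 : (m : ℤ) ≤ h := by
      have h4 : (m:ℝ) ≤ h := by
        refine le_trans ?_ hh
        rw [mul_div_assoc', le_div_iff₀ hδ]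
        have h5 : 1 ≤ C2 * (κ * Sz) := by rwa [div_le_iff₀ (by positivity)] at g2
        have h6 : (m:ℝ) * (2 * C2 * δ) ≤ 1 := h1'.trans hρ1
        have h7 : 0 ≤ (m:ℝ) * δ := by positivity
        by_contra hc
        push Not at hc
        nlinarith
      exact_mod_cast h4
    have h4 : C1 * (m + 1) * δ ≤ ρ := by
      have : C1 * (m + 1) * δ ≤ C2 * (2 * m) * δ := by
        apply mul_le_mul_of_nonneg_right _ hδ.le
        apply mul_le_mul g1 (by linarith) (by positivity) hC20.le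
      linarith
    have h5 : ∑ F ∈ S.powerset, w F * ind (ρ < x F) ≤ ∑ F ∈ S.powerset, w F * ind (Bd m F) := by
      apply Finset.sum_le_sum
      intro F hF
      apply mul_le_mul_of_nonneg_left _ (hw0' F hF)
      apply ind_mono
      intro h6
      exact hdet m hm0 h3 F (Finset.mem_powerset.1 hF) (lt_of_le_of_lt h4 h6)
    refine (h5.trans (hprob m hm0)).trans ?_
    have h6 : ρ / (4 * C2 * δ) ≤ m := by
      rw [div_le_iff₀ (by positivity)]
      nlinarith [mul_nonneg (by linarith : (0:ℝ) ≤ m - 1) (by positivity : 0 ≤ 2 * C2 * δ)]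
    have h7 : (Sz / δ + m) / m ≤ (1 + 4 * C2 * Sz) / ρ := by
      rw [div_le_div_iff₀ (by linarith) hρ]
      have h8 : Sz / δ * ρ ≤ 4 * C2 * Sz * m := by
        rw [div_mul_eq_mul_div, div_le_iff₀ hδ]
        rw [div_le_iff₀ (by positivity)] at h6
        nlinarith
      nlinarith
    have h8 : ((Sz / δ + m) / m) ^ 2 ≤ (1 + 4 * C2 * Sz) ^ 2 / ρ ^ 2 := by
      rw [← div_pow]
      exact pow_le_pow_left₀ (by positivity) h7 2
    have h9 : Real.exp (-(cb * (m * s))) ≤ Real.exp (-(cb / (4 * C2) * (ρ * (s / δ)))) := by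
      apply Real.exp_le_exp.2
      rw [neg_le_neg_iff]
      have h10 := mul_le_mul_of_nonneg_left (mul_le_mul_of_nonneg_right h6 hs0) hcb.le
      refine le_of_eq_of_le ?_ h10
      field_simp
    have h10 : 0 < Real.exp (cb / 2) := Real.exp_pos _
    have h11 : Cb * ((Sz / δ + m) / m) ^ 2 ≤
        (Cb * (1 + 4 * C2 * Sz) ^ 2 + Real.exp (cb / 2)) / ρ ^ 2 := by
      have h13 := mul_le_mul_of_nonneg_left h8 hCb.le
      have h12 : 0 ≤ Real.exp (cb / 2) / ρ ^ 2 := by positivity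
      have h14 : (Cb * (1 + 4 * C2 * Sz) ^ 2 + Real.exp (cb / 2)) / ρ ^ 2 =
          Cb * ((1 + 4 * C2 * Sz) ^ 2 / ρ ^ 2) + Real.exp (cb / 2) / ρ ^ 2 := by ring
      rw [h14]
      linarith
    exact mul_le_mul h11 h9 (Real.exp_pos _).le (by positivity)

theorem rpow_le_one' {ε : ℝ} (h0 : 0 ≤ ε) (h1 : ε ≤ 1/2) : ε ^ (4/3 : ℝ) ≤ 1 :=
  Real.rpow_le_one h0 (by linarith) (by norm_num)

/-- more open edges: the complementary arc -/
theorem right_main (hB : S_DBIG) (hM : S_MAT) (hS : S_SEP) (R : Rect) :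
    ∃ C c δ₀ : ℝ, 0 < C ∧ 0 < c ∧ 0 < δ₀ ∧ ∀ δ : ℝ, 0 < δ → δ ≤ δ₀ → ∀ ε : ℝ, 0 ≤ ε →
      ε ≤ 1/2 → ∀ w : Finset Edg → ℝ, (∀ F ⊆ (R.dm δ).edges, 0 ≤ w F) →
      ∑ F ∈ (R.dm δ).edges.powerset, w F = 1 →
      (∀ e ∈ (R.dm δ).edges, ∀ F ⊆ (R.dm δ).edges, e ∉ F →
        (1/2 + ε) * (w (insert e F) + w F) ≤ w (insert e F)) →
      ∀ ρ : ℝ, 0 < ρ → ρ ≤ 1 → ∑ F ∈ (R.dm δ).edges.powerset,
        w F * ind (ρ < H342L.cdist (R.curve δ F) (arcR R)) ≤
          C / ρ ^ 2 * Real.exp (-(c * (ρ * (ε ^ (4/3 : ℝ) / δ)))) := by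
  obtain ⟨κ, Sz, δ0, hκ, hSz, hδ0, _, hsh⟩ := R.shape
  obtain ⟨C1, δ1, hC1, hδ1, hmat⟩ := hM R
  obtain ⟨cb, Cb, hcb, hCb, hbig⟩ := hB
  obtain ⟨C, c, hC, hc, hcore⟩ := core hκ hSz hC1 hCb hcb
  refine ⟨C, c, min δ0 δ1, hC, hc, lt_min hδ0 hδ1, ?_⟩
  intro δ hδ hle ε h0 h1 w hw0 hw1 hcond
  have hshape := hsh δ hδ (hle.trans (min_le_left _ _))
  have hDe : (R.dm δ).edges = RE (R.dm δ).l (R.dm δ).r 0 (R.dm δ).h := rfl
  refine hcore δ (ε ^ (4/3 : ℝ)) (R.dm δ).h (R.dm δ).edges w _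
    (fun m F => DBig (R.dm δ).edges m F) hδ (by positivity) (rpow_le_one' h0 h1) hshape.h_ge hw0
    hw1 ?_ ?_
  · intro m _ hmh F hF hx
    by_contra hnb
    have hsm : ∀ g ∈ (R.dm δ).outer, ∀ f, DC (R.dm δ) F g f → sd g f < m := by
      intro g _ f hgf
      by_contra hc
      push Not at hc
      refine hnb ⟨g, f, hc, DReach.mono ?_ hgf⟩
      rintro e ⟨he1, he2⟩
      rw [Finset.coe_sdiff]
      exact ⟨he1, fun he3 => he2 (Or.inl he3)⟩
    obtain ⟨M, hMf⟩ := t_DET hS (R.dm δ) hshape.ok F hF m hmh hsm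
    have := (hmat δ hδ (hle.trans (min_le_right _ _)) F hF m M).1 hMf
    linarith
  · intro m hm
    have h2 := dom_up (q := 1/2 + ε) (by linarith) (by linarith) (R.dm δ).edges w
      (fun F => ind (DBig (R.dm δ).edges m F)) hcond (by
        intro F G hFG hG
        apply ind_mono
        rintro ⟨x, y, hx, hr⟩
        refine ⟨x, y, hx, hr.mono ?_⟩
        intro e he
        rw [Finset.coe_sdiff] at he ⊢
        exact ⟨he.1, fun h => he.2 (hFG h)⟩)
    rw [hw1, one_mul] at h2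
    refine h2.trans ?_
    have h3 := hbig (1/2 - ε) (R.dm δ).l (R.dm δ).r 0 (R.dm δ).h (Sz / δ) m (by linarith)
      (by linarith) hm (by positivity) hshape.w_le (by simpa using hshape.h_le)
    have e1 : (1:ℝ) - (1/2 - ε) = 1/2 + ε := by ring
    have e2 : (1:ℝ)/2 - (1/2 - ε) = ε := by ring
    rw [e1, e2, ← hDe] at h3
    exact h3

/-- fewer open edges: the wired arc -/
theorem left_main (hB : S_BIG) (hM : S_MAT) (hS : S_SEPW) (R : Rect) :
    ∃ C c δ₀ : ℝ, 0 < C ∧ 0 < c ∧ 0 < δ₀ ∧ ∀ δ : ℝ, 0 < δ → δ ≤ δ₀ → ∀ ε : ℝ, 0 ≤ ε →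
      ε ≤ 1/2 → ∀ w : Finset Edg → ℝ, (∀ F ⊆ (R.dm δ).edges, 0 ≤ w F) →
      ∑ F ∈ (R.dm δ).edges.powerset, w F = 1 →
      (∀ e ∈ (R.dm δ).edges, ∀ F ⊆ (R.dm δ).edges, e ∉ F →
        w (insert e F) ≤ (1/2 - ε) * (w (insert e F) + w F)) →
      ∀ ρ : ℝ, 0 < ρ → ρ ≤ 1 → ∑ F ∈ (R.dm δ).edges.powerset,
        w F * ind (ρ < H342L.cdist (R.curve δ F) (arcL R)) ≤
          C / ρ ^ 2 * Real.exp (-(c * (ρ * (ε ^ (4/3 : ℝ) / δ)))) := by
  obtain ⟨κ, Sz, δ0, hκ, hSz, hδ0, _, hsh⟩ := R.shape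
  obtain ⟨C1, δ1, hC1, hδ1, hmat⟩ := hM R
  obtain ⟨cb, Cb, hcb, hCb, hbig⟩ := hB
  obtain ⟨C, c, hC, hc, hcore⟩ := core hκ hSz hC1 hCb hcb
  refine ⟨C, c, min δ0 δ1, hC, hc, lt_min hδ0 hδ1, ?_⟩
  intro δ hδ hle ε h0 h1 w hw0 hw1 hcond
  have hshape := hsh δ hδ (hle.trans (min_le_left _ _))
  have hDe : (R.dm δ).edges = RE (R.dm δ).l (R.dm δ).r 0 (R.dm δ).h := rfl
  refine hcore δ (ε ^ (4/3 : ℝ)) (R.dm δ).h (R.dm δ).edges w _
    (fun m F => Big m F) hδ (by positivity) (rpow_le_one' h0 h1) hshape.h_ge hw0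
    hw1 ?_ ?_
  · intro m _ hmh F hF hx
    by_contra hnb
    have hsm : ∀ i : ℤ, 0 ≤ i → i ≤ LW (R.dm δ) → ∀ v, PC (R.dm δ) F (wv (R.dm δ) i) v →
        sd (wv (R.dm δ) i) v < m := by
      intro i _ _ v hgf
      by_contra hc
      push Not at hc
      exact hnb ⟨_, v, hc, Reach.mono Set.sdiff_subset hgf⟩
    obtain ⟨M, hMf⟩ := t_DETW hS (R.dm δ) hshape.ok F hF m hmh hsm
    have := (hmat δ hδ (hle.trans (min_le_right _ _)) F hF m M).2 hMf
    linarith
  · intro m hm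
    have h2 := dom_down (q := 1/2 - ε) (by linarith) (by linarith) (R.dm δ).edges w
      (fun F => ind (Big m F)) hcond (by
        intro F G hFG hG
        apply ind_mono
        rintro ⟨x, y, hx, hr⟩
        exact ⟨x, y, hx, hr.mono (by exact_mod_cast hFG)⟩)
    rw [hw1, one_mul] at h2
    refine h2.trans ?_
    have h3 := hbig (1/2 - ε) (R.dm δ).l (R.dm δ).r 0 (R.dm δ).h (Sz / δ) m (by linarith)
      (by linarith) hm (by positivity) hshape.w_le (by simpa using hshape.h_le)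
    have e2 : (1:ℝ)/2 - (1/2 - ε) = ε := by ring
    rw [e2, ← hDe] at h3
    exact h3

end Pool.Agent.Zk36.CO
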