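import Pool.Agent.Zk36.CO.FIN

/-!
# The exploration path outside of the near-critical window: limits
-/

set_option autoImplicit false

namespace Pool.Agent.Zk36.CO

open H974 Finset H342P H984P H984N Filter Topology

theorem pow_tendsto {δ ε : ℕ → ℝ} (hδ : ∀ n, 0 < δ n) (hε : ∀ n, 0 ≤ ε n)
    (h : Tendsto (fun n => ε n * δ n ^ (-(3/4 : ℝ))) atTop atTop) :
    Tendsto (fun n => ε n ^ (4/3 : ℝ) / δ n) atTop atTop := by
  have h1 : Tendsto (fun n => (ε n * δ n ^ (-(3/4 : ℝ))) ^ (4/3 : ℝ)) atTop atTop :=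
    (tendsto_rpow_atTop (by norm_num)).comp h
  refine h1.congr fun n => ?_
  rw [Real.mul_rpow (hε n) (Real.rpow_nonneg (hδ n).le _), ← Real.rpow_mul (hδ n).le]
  norm_num
  rw [Real.rpow_neg_one]
  rfl

/-- the bound tends to zero -/
theorem lim_of {x : ℕ → ℝ → ℝ} {δ ε : ℕ → ℝ} {C c δ₀ : ℝ} (hc : 0 < c) (hδ₀ : 0 < δ₀)
    (hδ : ∀ n, 0 < δ n) (hδ0 : Tendsto δ atTop (𝓝 0)) (hε : ∀ n, 0 ≤ ε n)
    (h : Tendsto (fun n => ε n * δ n ^ (-(3/4 : ℝ))) atTop atTop)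
    (hx0 : ∀ n ρ, 0 ≤ x n ρ) (hmono : ∀ n ρ ρ', ρ ≤ ρ' → x n ρ' ≤ x n ρ)
    (hx : ∀ n, δ n ≤ δ₀ → ∀ ρ, 0 < ρ → ρ ≤ 1 →
      x n ρ ≤ C / ρ ^ 2 * Real.exp (-(c * (ρ * (ε n ^ (4/3 : ℝ) / δ n))))) :
    ∀ ρ, 0 < ρ → Tendsto (fun n => x n ρ) atTop (𝓝 0) := by
  intro ρ hρ
  have hρ' : 0 < min ρ 1 := lt_min hρ one_pos
  have h1 := pow_tendsto hδ hε h
  have h2 : Tendsto (fun n => C / (min ρ 1) ^ 2 *
      Real.exp (-(c * (min ρ 1 * (ε n ^ (4/3 : ℝ) / δ n))))) atTop (𝓝 0) := by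
    have h3 : Tendsto (fun n => c * (min ρ 1 * (ε n ^ (4/3 : ℝ) / δ n))) atTop atTop :=
      (h1.const_mul_atTop hρ').const_mul_atTop hc
    have h4 := (Real.tendsto_exp_neg_atTop_nhds_zero.comp h3).const_mul (C / (min ρ 1) ^ 2)
    simpa using h4
  refine tendsto_of_tendsto_of_tendsto_of_le_of_le' tendsto_const_nhds h2
    (Eventually.of_forall fun n => hx0 n ρ) ?_
  have h5 : ∀ᶠ n in atTop, δ n ≤ δ₀ := by
    filter_upwards [hδ0.eventually (gt_mem_nhds hδ₀)] with n hn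
    exact hn.le
  filter_upwards [h5] with n hn
  exact (hmono n _ _ (min_le_left _ _)).trans (hx n hn _ hρ' (min_le_right _ _))

/-- convergence in probability to a curve implies convergence of the expectations of bounded
continuous functions -/
theorem exp_lim {S : ℕ → Finset Edg} {w : ℕ → Finset Edg → ℝ} (hw : ∀ n, ∀ F ⊆ S n, 0 ≤ w n F)
    (hw1 : ∀ n, ∑ F ∈ (S n).powerset, w n F = 1) {X : ℕ → Finset Edg → C(unitInterval, ℂ)}
    {a : C(unitInterval, ℂ)}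
    (h : ∀ ρ : ℝ, 0 < ρ → Tendsto (fun n => ∑ F ∈ (S n).powerset,
      w n F * ind (ρ < H342L.cdist (X n F) a)) atTop (𝓝 0))
    (f : BoundedContinuousFunction H342L.Curve ℝ) :
    Tendsto (fun n => ∑ F ∈ (S n).powerset, w n F * f ⟨X n F⟩) atTop (𝓝 (f ⟨a⟩)) := by
  rw [Metric.tendsto_atTop]
  intro η hη
  have hcont := f.continuous.continuousAt (x := (⟨a⟩ : H342L.Curve))
  rw [Metric.continuousAt_iff] at hcont
  obtain ⟨ρ, hρ, hf⟩ := hcont (η / 2) (by positivity)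
  have hB : ∀ x, |f x| ≤ ‖f‖ := fun x => f.norm_coe_le_norm x
  have h1 := h (ρ / 2) (by positivity)
  rw [Metric.tendsto_atTop] at h1
  obtain ⟨N, hN⟩ := h1 (η / (4 * (‖f‖ + 1))) (by positivity)
  refine ⟨N, fun n hn => ?_⟩
  have h2 := hN n hn
  have hpos : 0 ≤ ∑ F ∈ (S n).powerset, w n F * ind (ρ / 2 < H342L.cdist (X n F) a) :=
    Finset.sum_nonneg fun F hF => mul_nonneg (hw n F (Finset.mem_powerset.1 hF)) (ind_nonneg _)
  rw [Real.dist_eq, sub_zero, abs_of_nonneg hpos] at h2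
  have e1 : ∑ F ∈ (S n).powerset, w n F * f ⟨X n F⟩ - f ⟨a⟩ =
      ∑ F ∈ (S n).powerset, w n F * (f ⟨X n F⟩ - f ⟨a⟩) := by
    simp only [mul_sub]
    rw [Finset.sum_sub_distrib, ← Finset.sum_mul, hw1 n, one_mul]
  rw [Real.dist_eq, e1]
  refine (Finset.abs_sum_le_sum_abs _ _).trans_lt ?_
  have h3 : ∑ F ∈ (S n).powerset, |w n F * (f ⟨X n F⟩ - f ⟨a⟩)| ≤
      ∑ F ∈ (S n).powerset, (η / 2 * w n F +
        2 * ‖f‖ * (w n F * ind (ρ / 2 < H342L.cdist (X n F) a))) := by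
    apply Finset.sum_le_sum
    intro F hF
    have hwF := hw n F (Finset.mem_powerset.1 hF)
    rw [abs_mul, abs_of_nonneg hwF]
    by_cases hc : ρ / 2 < H342L.cdist (X n F) a
    · rw [ind_of hc, mul_one]
      have h4 : |f ⟨X n F⟩ - f ⟨a⟩| ≤ 2 * ‖f‖ := by
        refine (abs_sub _ _).trans ?_
        linarith [hB ⟨X n F⟩, hB ⟨a⟩]
      have h5 := mul_le_mul_of_nonneg_left h4 hwF
      nlinarith
    · rw [ind_not_of hc, mul_zero, mul_zero, add_zero]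
      push Not at hc
      have h4 : dist (f ⟨X n F⟩) (f ⟨a⟩) < η / 2 := by
        apply hf
        rw [H342L.Curve.dist_def]
        exact lt_of_le_of_lt hc (by linarith)
      rw [Real.dist_eq] at h4
      have h5 := mul_le_mul_of_nonneg_left h4.le hwF
      linarith
  refine h3.trans_lt ?_
  rw [Finset.sum_add_distrib, ← Finset.mul_sum, ← Finset.mul_sum, hw1 n]
  have h6 : 0 ≤ ‖f‖ := norm_nonneg f
  have h7 : 2 * ‖f‖ * ∑ F ∈ (S n).powerset, w n F * ind (ρ / 2 < H342L.cdist (X n F) a) ≤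
      2 * ‖f‖ * (η / (4 * (‖f‖ + 1))) := mul_le_mul_of_nonneg_left h2.le (by positivity)
  have h8 : 2 * ‖f‖ * (η / (4 * (‖f‖ + 1))) < η / 2 := by
    rw [mul_div_assoc', div_lt_div_iff₀ (by positivity) (by norm_num)]
    nlinarith
  linarith

end Pool.Agent.Zk36.CO
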