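import Pool.Agent.Zk36.CO.DET
import Pool.Agent.H984R4.NP.PL
import Pool.Agent.H443R3.BT.Conv

/-!
# The near-critical window is optimal: crossings and the exploration path
-/

set_option autoImplicit false

namespace Pool.Agent.Zk36.CO

open H974 Finset H342P H984P H984N Filter Topology

/-- A left-right crossing of the rectangle brings the path to the right side. -/
theorem nec_touch {D : Dm} (hD : D.Ok) {F : Finset Edg} (hF : F ⊆ D.edges)
    (h : LRc D.l D.r 0 D.h F) : ∃ k < D.len F, (D.walk F k).1.1 = D.r := by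
  obtain ⟨y, y', hy, hy', hr⟩ := h
  have h1 : (D.l, y) ∈ D.clu F := by
    have e1 := clu_bottom (D := D) F (-D.l).toNat (by have := hD.l_neg; omega)
    have e2 := clu_left (D := D) F y.toNat (by omega)
    have f1 : -(((-D.l).toNat : ℕ) : ℤ) = D.l := by have := hD.l_neg; omega
    have f2 : ((y.toNat : ℕ) : ℤ) = y := by omega
    rw [f1] at e1
    rw [f2] at e2
    exact e1.trans e2
  have h2 : (D.r, y') ∈ D.clu F := by
    have h3 : Reach (D.cfg F) (0, 0) (D.l, y) := h1
    refine h3.trans (hr.mono ?_)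
    intro e he
    exact Or.inl he.1
  have h3 : face (((D.r, y'), Q4.ne) : St) ∈ D.dclu F := by
    refine ⟨(D.r, y'), Or.inr (Or.inl ⟨rfl, ?_, ?_⟩), DReach.refl _ _⟩
    · simp only; omega
    · simp only; omega
  obtain ⟨k, hk, hw⟩ := H443B.visited hD hF (σ := ((D.r, y'), Q4.ne)) h2 h3
  refine ⟨k, ?_, by rw [hw]⟩
  rcases Nat.lt_or_ge k (D.len F) with h4 | h4
  · exact h4
  · have h5 : k = D.len F := le_antisymm hk h4
    have h6 : D.walk F (D.len F) = Dm.stop := walk_len hD hF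
    rw [← h5, hw] at h6
    have := congrArg (fun σ : St => σ.1.1) h6
    have h7 := hD.r_pos
    simp only [Dm.stop] at this
    omega

/-- If the path goes far to the right there is a left-right crossing. -/
theorem nec_cross {D : Dm} (hD : D.Ok) (ht : D.t ≤ 0) {F : Finset Edg} (hF : F ⊆ D.edges) {k : ℕ}
    (hk : k ≤ D.len F) {w : ℤ} (hw : 0 < w) (h : w ≤ (D.walk F k).1.1) : LRc 0 w 0 D.h F := by
  have h1 : Reach (D.cfg F) (0, 0) (D.walk F k).1 := (walk_clu hD hF hk).1
  have hin : ∀ e ∈ D.cfg F, inR D.l D.r 0 D.h (src e) ∧ inR D.l D.r 0 D.h (tgt e) :=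
    fun e he => clu_cfg_in hD hF he
  obtain ⟨y1, y2, m1, m2, m3, -⟩ := sub_LR (a := 0) (b := w) (c := 0) (d := D.h) hw
    (by
      intro x y he _ _
      have := (hin _ he).1
      unfold inR at this
      simp only [src_mk] at this
      exact this.2)
    (by
      intro x y he _ _
      have h3 := (hin _ he).1
      have h4 := (hin _ he).2
      unfold inR at h3 h4
      simp only [src_mk] at h3
      simp only [tgt_false] at h4
      omega)
    h1 (by simp) h
  refine ⟨y1, y2, m1, m2, m3.mono ?_⟩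
  rintro e ⟨he, hL⟩
  refine ⟨?_, hL⟩
  rcases he with he | he
  · exact he
  · exfalso
    have h2 := hD.l_neg
    rw [Finset.mem_coe] at hL
    obtain ⟨x, y, _ | _⟩ := e
    · rw [mem_LRE_false] at hL
      unfold Dm.wir at he
      simp at he
      omega
    · rw [mem_LRE_true] at hL
      unfold Dm.wir at he
      simp at he
      omega

/-- the largest real part -/
noncomputable def mx (γ : C(unitInterval, ℂ)) : ℝ := ⨆ t : unitInterval, (γ t).re

theorem mx_bdd (γ : C(unitInterval, ℂ)) : BddAbove (Set.range fun t : unitInterval => (γ t).re) :=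
  (isCompact_range (Complex.continuous_re.comp γ.continuous)).bddAbove

theorem le_mx (γ : C(unitInterval, ℂ)) (t : unitInterval) : (γ t).re ≤ mx γ :=
  le_ciSup (mx_bdd γ) t

theorem mx_le {γ : C(unitInterval, ℂ)} {x : ℝ} (h : ∀ t, (γ t).re ≤ x) : mx γ ≤ x := ciSup_le h

theorem lt_mx {γ : C(unitInterval, ℂ)} {x : ℝ} (h : x < mx γ) : ∃ t, x < (γ t).re :=
  exists_lt_of_lt_ciSup h

theorem mx_lip (γ γ' : C(unitInterval, ℂ)) : mx γ - mx γ' ≤ H342L.cdist γ γ' := by
  rw [H342L.cdist_eq]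
  apply le_ciInf
  intro φ
  rw [sub_le_iff_le_add]
  apply mx_le
  intro t
  have h1 := ContinuousMap.dist_apply_le_dist (f := γ) (g := H342L.rep γ' φ) t
  have h2 := le_mx γ' (φ t)
  have h3 : (γ t).re - (γ' (φ t)).re ≤ dist (γ t) (γ' (φ t)) := by
    rw [Complex.dist_eq]
    refine le_trans ?_ (Complex.abs_re_le_norm _)
    rw [Complex.sub_re]
    exact le_abs_self _
  rw [H342L.rep_apply] at h1
  linarith

/-- the test function: `0` if the largest real part is at most `u`, `1` if it is at least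
`u + κ` -/
noncomputable def tf (u κ : ℝ) (x : H342L.Curve) : ℝ := max 0 (min 1 ((mx x.path - u) / κ))

theorem tf_range (u κ : ℝ) (x : H342L.Curve) : 0 ≤ tf u κ x ∧ tf u κ x ≤ 1 := by
  unfold tf
  refine ⟨le_max_left _ _, max_le (by norm_num) (min_le_left _ _)⟩

theorem tf_lip {u κ : ℝ} (hκ : 0 < κ) (x y : H342L.Curve) :
    |tf u κ x - tf u κ y| ≤ 1 / κ * dist x y := by
  have key : ∀ a b : ℝ, |max 0 (min 1 a) - max 0 (min 1 b)| ≤ |a - b| := by
    intro a b
    have h1 := le_abs_self (a - b)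
    have h2 := neg_abs_le (a - b)
    have h3 := abs_nonneg (a - b)
    rw [abs_le, max_def, max_def, min_def, min_def]
    split_ifs <;> constructor <;> linarith
  unfold tf
  refine (key _ _).trans ?_
  rw [← sub_div, abs_div, abs_of_pos hκ, div_eq_mul_inv, mul_comm, one_div]
  refine mul_le_mul_of_nonneg_left ?_ (by positivity)
  have h1 := mx_lip x.path y.path
  have h2 := mx_lip y.path x.path
  rw [H342L.cdist_comm y.path x.path] at h2
  rw [H342L.Curve.dist_def, abs_le]
  constructor <;> linarith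

theorem tf_one {u κ : ℝ} (hκ : 0 < κ) {x : H342L.Curve} (h : u + κ ≤ mx x.path) :
    tf u κ x = 1 := by
  unfold tf
  have : 1 ≤ (mx x.path - u) / κ := by
    rw [le_div_iff₀ hκ]
    linarith
  rw [min_eq_left this]
  norm_num

theorem tf_zero {u κ : ℝ} (hκ : 0 < κ) {x : H342L.Curve} (h : mx x.path ≤ u) : tf u κ x = 0 := by
  unfold tf
  apply max_eq_left
  refine (min_le_right _ _).trans ?_
  apply div_nonpos_of_nonpos_of_nonneg _ hκ.le
  linarith

theorem tf_le {u κ : ℝ} (hκ : 0 < κ) {x : H342L.Curve} {A : Prop} (h : u < mx x.path → A) :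
    tf u κ x ≤ ind A := by
  rcases le_or_gt (mx x.path) u with h1 | h1
  · rw [tf_zero hκ h1]
    exact ind_nonneg _
  · rw [ind_of (h h1)]
    exact (tf_range _ _ _).2

/-- the curve reaches the right side of the domain -/
theorem nec_touch' (R : Rect) {δ : ℝ} (hδ : 0 < δ) (hD : (R.dm δ).Ok) {F : Finset Edg}
    (hF : F ⊆ (R.dm δ).edges) (h : LRc (R.dm δ).l (R.dm δ).r 0 (R.dm δ).h F) :
    R.B - 2 * δ ≤ mx (R.curve δ F) := by
  obtain ⟨k, hk, hw⟩ := nec_touch hD hF h
  have hN : (0:ℝ) < (R.dm δ).len F := by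
    have : 0 < (R.dm δ).len F := by omega
    exact_mod_cast this
  have hk' : (k:ℝ) ≤ (R.dm δ).len F := by exact_mod_cast hk.le
  obtain ⟨s, hs⟩ : ∃ s : unitInterval, (s:ℝ) = k / (R.dm δ).len F :=
    ⟨⟨k / (R.dm δ).len F, by positivity, by rw [div_le_one hN]; exact hk'⟩, rfl⟩
  have hsN : (s:ℝ) * (R.dm δ).len F = k := by
    rw [hs]
    field_simp
  have h1 : R.curve δ F s = pos δ ((R.dm δ).walk F k) := by
    unfold Rect.curve
    rw [pl_seg hk (by rw [hsN]) (by rw [hsN]; linarith), hsN]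
    simp
  refine le_trans ?_ (le_mx _ s)
  rw [h1, ML.pos_re]
  have h2 := abs_le.1 (ML.qx_le ((R.dm δ).walk F k).2)
  have h3 : (((R.dm δ).walk F k).1.1 : ℝ) = ((R.dm δ).r : ℤ) := by exact_mod_cast hw
  rw [h3]
  have h4 : R.B / δ ≤ ((R.dm δ).r : ℝ) + 1 := by
    have : (R.dm δ).r = ⌈R.B / δ⌉ - 1 := rfl
    rw [this]
    push_cast
    have := Int.le_ceil (R.B / δ)
    linarith
  rw [div_le_iff₀ hδ] at h4
  nlinarith [h2.1]

/-- if the curve goes far to the right there is a crossing -/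
theorem nec_cross' (R : Rect) (ht : R.t ≤ 0) {δ : ℝ} (hδ : 0 < δ) (hD : (R.dm δ).Ok)
    {F : Finset Edg} (hF : F ⊆ (R.dm δ).edges) {u : ℝ} (h : u < mx (R.curve δ F)) {w : ℤ}
    (hw0 : 0 < w) (hw : (w : ℝ) ≤ u / δ - 2) : LRc 0 w 0 (R.dm δ).h F := by
  obtain ⟨s, hs⟩ := lt_mx h
  obtain ⟨k, hk, hd⟩ := pl_close (N := (R.dm δ).len F)
    (p := fun k => pos δ ((R.dm δ).walk F k)) (δ := δ / 2) (by positivity) (by
      intro k _
      rw [clu_walk_succ]
      exact pos_nxt hδ.le _ _) s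
  have ht' : (R.dm δ).t ≤ 0 := by
    have : (R.dm δ).t = ⌊R.t / δ⌋ := rfl
    rw [this]
    have h1 : R.t / δ ≤ 0 := div_nonpos_of_nonpos_of_nonneg ht hδ.le
    have h2 : (⌊R.t / δ⌋ : ℝ) ≤ 0 := (Int.floor_le _).trans h1
    exact_mod_cast h2
  refine nec_cross hD ht' hF hk hw0 ?_
  have h1 := (ML.le_dist_re _ _).trans hd
  rw [abs_le] at h1
  have h2 : u < (R.curve δ F s).re := hs
  have h3 : (R.curve δ F s).re = (pl ((R.dm δ).len F) (fun k => pos δ ((R.dm δ).walk F k)) s).re :=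
    rfl
  rw [h3] at h2
  have h4 := ML.pos_re δ ((R.dm δ).walk F k)
  have h5 := abs_le.1 (ML.qx_le ((R.dm δ).walk F k).2)
  have h6 : u - δ / 2 < δ * ((((R.dm δ).walk F k).1.1 : ℝ) + ML.qx ((R.dm δ).walk F k).2) := by
    rw [← h4]
    linarith [h1.2]
  have h7 : u / δ < (((R.dm δ).walk F k).1.1 : ℝ) + 1 := by
    rw [div_lt_iff₀ hδ]
    nlinarith [h5.2]
  have h8 : (w : ℝ) ≤ (((R.dm δ).walk F k).1.1 : ℝ) := by linarith
  exact_mod_cast h8

end Pool.Agent.Zk36.CO
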