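import Pool.Agent.Zk36.CO.NEC1

/-!
# The near-critical window is optimal
-/

set_option autoImplicit false

namespace Pool.Agent.Zk36.CO

open H974 Finset H342P H984P H984N Filter Topology

/-- LOW: lower bound for the change of the crossing probabilities of rectangles. -/
def S_LOW : Prop := ∀ K : ℕ, 1 ≤ K → ∃ c : ℝ, 0 < c ∧ ∀ w h : ℕ, 1 ≤ w → 1 ≤ h → w ≤ K * h →
  h ≤ K * w → ∀ q : ℝ, 0 ≤ q → q ≤ 1 →
    c * min 1 (|q - 1/2| * (w:ℝ) ^ (3/4 : ℝ)) ≤ |hh q w h - hh (1/2) w h|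

theorem okn {q : ℝ} (h0 : 0 ≤ q) (h1 : q ≤ 1) : Ok (fun _ : Edg => q) := fun _ => ⟨h0, h1⟩

/-- the domain -/
noncomputable def RJ (x κ : ℝ) (hx : 0 < x) (hκ : 0 < κ) : Rect where
  A := κ / 8
  B := x + 3 * κ / 4
  H := 1
  t := -(κ / 16)
  hA := by positivity
  hB := by positivity
  hH := one_pos
  ht1 := by linarith
  ht2 := by
    have : 0 < x + 3 * κ / 4 := by positivity
    linarith

section
variable {x κ δ : ℝ} (hx : 1 ≤ x) (hx2 : x + κ ≤ 2) (hκ : 0 < κ) (hδ : 0 < δ) (hδκ : 100 * δ ≤ κ)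
  (hx0 : 0 < x)
include hx hx2 hκ hδ hδκ

theorem RJ_facts : ((RJ x κ hx0 hκ).dm δ).Ok ∧
    (((RJ x κ hx0 hκ).dm δ).r - ((RJ x κ hx0 hκ).dm δ).l ≤ (⌊(x + κ) / δ⌋₊ : ℤ)) ∧
    ((⌊x / δ⌋₊ : ℤ) ≤ ((RJ x κ hx0 hκ).dm δ).r) ∧
    ((⌊x / δ⌋₊ : ℝ) ≤ (x + κ / 2) / δ - 2) ∧
    (∃ h : ℕ, (h : ℤ) = ((RJ x κ hx0 hκ).dm δ).h ∧ 1 ≤ h ∧ 1 / δ - 2 ≤ (h:ℝ) ∧
      (h:ℝ) ≤ 1 / δ - 1) ∧
    1 / δ - 1 ≤ (⌊x / δ⌋₊ : ℝ) ∧ 1 / δ - 1 ≤ (⌊(x + κ) / δ⌋₊ : ℝ) ∧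
    (⌊x / δ⌋₊ : ℝ) ≤ 2 / δ ∧ (⌊(x + κ) / δ⌋₊ : ℝ) ≤ 2 / δ ∧ 50 ≤ 1 / δ := by
  have hκ1 : κ ≤ 1 := by linarith
  have hδ1 : 100 * δ ≤ 1 := by linarith
  have hid : 0 < 1 / δ := by positivity
  have h100 : 100 ≤ 1 / δ := by
    rw [le_div_iff₀ hδ]
    linarith
  have hκd : 100 ≤ κ / δ := by
    rw [le_div_iff₀ hδ]
    linarith
  have e1 : (x + κ) / δ = x / δ + κ / δ := by ring
  have e2 : (x + κ / 2) / δ = x / δ + κ / δ / 2 := by ring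
  have e3 : (x + 3 * κ / 4) / δ = x / δ + 3 * (κ / δ) / 4 := by ring
  have e4 : κ / 8 / δ = κ / δ / 8 := by ring
  have e5 : -(κ / 16) / δ = -(κ / δ / 16) := by ring
  have hxd : 1 / δ ≤ x / δ := div_le_div_of_nonneg_right hx hδ.le
  have hxd2 : (x + κ) / δ ≤ 2 / δ := div_le_div_of_nonneg_right hx2 hδ.le
  have f1 := Nat.floor_le (show 0 ≤ x / δ by positivity)
  have f2 := Nat.lt_floor_add_one (x / δ)
  have f3 := Nat.floor_le (show 0 ≤ (x + κ) / δ by positivity)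
  have f4 := Nat.lt_floor_add_one ((x + κ) / δ)
  have g1 := Int.le_ceil ((x + 3 * κ / 4) / δ)
  have g2 := Int.ceil_lt_add_one ((x + 3 * κ / 4) / δ)
  have g3 := Int.le_ceil (1 / δ)
  have g4 := Int.ceil_lt_add_one (1 / δ)
  have g5 := Int.floor_le (-(κ / 8 / δ))
  have g6 := Int.lt_floor_add_one (-(κ / 8 / δ))
  have g7 := Int.floor_le (-(κ / 16) / δ)
  have g8 := Int.lt_floor_add_one (-(κ / 16) / δ)
  have d1 : ((RJ x κ hx0 hκ).dm δ).l = ⌊-(κ / 8 / δ)⌋ + 1 := rfl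
  have d2 : ((RJ x κ hx0 hκ).dm δ).r = ⌈(x + 3 * κ / 4) / δ⌉ - 1 := rfl
  have d3 : ((RJ x κ hx0 hκ).dm δ).h = ⌈1 / δ⌉ - 2 := rfl
  have d4 : ((RJ x κ hx0 hκ).dm δ).t = ⌊-(κ / 16) / δ⌋ := rfl
  rw [e3] at g1 g2
  rw [e4] at g5 g6
  rw [e5] at g7 g8
  rw [e1] at f3 f4 hxd2
  rw [e4] at d1
  rw [e3] at d2
  rw [e5] at d4
  refine ⟨⟨?_, ?_, ?_, ?_, ?_⟩, ?_, ?_, ?_, ?_, ?_, ?_, ?_, ?_, ?_⟩
  · rw [d1]
    have : ((⌊-(κ / δ / 8)⌋ : ℤ) : ℝ) + 1 < 0 := by linarith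
    exact_mod_cast this
  · rw [d2]
    have : (0:ℝ) < ((⌈x / δ + 3 * (κ / δ) / 4⌉ : ℤ) : ℝ) - 1 := by linarith
    exact_mod_cast this
  · rw [d3]
    have : (0:ℝ) < ((⌈1 / δ⌉ : ℤ) : ℝ) - 2 := by linarith
    exact_mod_cast this
  · rw [d1, d4]
    have : ((⌊-(κ / δ / 8)⌋ : ℤ) : ℝ) + 1 ≤ ((⌊-(κ / δ / 16)⌋ : ℤ) : ℝ) := by linarith
    exact_mod_cast this
  · rw [d2, d4]
    have : ((⌊-(κ / δ / 16)⌋ : ℤ) : ℝ) ≤ ((⌈x / δ + 3 * (κ / δ) / 4⌉ : ℤ) : ℝ) - 1 := by linarith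
    exact_mod_cast this
  · rw [d1, d2, e1]
    have : (((⌈x / δ + 3 * (κ / δ) / 4⌉ : ℤ) : ℝ) - 1) - (((⌊-(κ / δ / 8)⌋ : ℤ) : ℝ) + 1) ≤
        (⌊x / δ + κ / δ⌋₊ : ℝ) := by linarith
    exact_mod_cast this
  · rw [d2]
    have : (⌊x / δ⌋₊ : ℝ) ≤ ((⌈x / δ + 3 * (κ / δ) / 4⌉ : ℤ) : ℝ) - 1 := by linarith
    exact_mod_cast this
  · rw [e2]
    linarith
  · obtain ⟨h, hh⟩ : ∃ h : ℕ, (h : ℤ) = ⌈1 / δ⌉ - 2 := by
      have : (0:ℝ) ≤ ((⌈1 / δ⌉ : ℤ) : ℝ) - 2 := by linarith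
      have h0 : 0 ≤ ⌈1 / δ⌉ - 2 := by exact_mod_cast this
      exact ⟨(⌈1 / δ⌉ - 2).toNat, Int.toNat_of_nonneg h0⟩
    have hr : (h:ℝ) = ((⌈1 / δ⌉ : ℤ) : ℝ) - 2 := by exact_mod_cast hh
    refine ⟨h, by rw [d3]; exact hh, ?_, by linarith, by linarith⟩
    have : (1:ℝ) ≤ h := by linarith
    exact_mod_cast this
  · linarith
  · rw [e1]
    linarith
  · linarith
  · rw [e1]
    linarith
  · linarith

theorem RJ_low {q : ℝ} (h0 : 0 ≤ q) (h1 : q ≤ 1) :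
    hh q (⌊(x + κ) / δ⌋₊ : ℤ) ((RJ x κ hx0 hκ).dm δ).h ≤
      Ex (fun _ => q) ((RJ x κ hx0 hκ).dm δ).edges
        (fun F => tf (x + κ / 2) (κ / 8) ⟨(RJ x κ hx0 hκ).curve δ F⟩) := by
  obtain ⟨hD, hw, -, -, -⟩ := RJ_facts hx hx2 hκ hδ hδκ hx0
  set D := (RJ x κ hx0 hκ).dm δ with hDdef
  have h3 : hh q (⌊(x + κ) / δ⌋₊ : ℤ) D.h ≤ hh q (D.r - D.l) D.h :=
    hh_mono h0 h1 (by have := hD.l_neg; have := hD.r_pos; omega) hw le_rfl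
  have h4 : Pr (fun _ => q) D.edges (LRc D.l D.r 0 D.h) = hh q (D.r - D.l) (D.h - 0) :=
    pr_LRc q LRE_subset_RE
  rw [sub_zero] at h4
  rw [← h4] at h3
  refine h3.trans ?_
  apply Ex_mono (okn h0 h1)
  intro F hF
  by_cases hc : LRc D.l D.r 0 D.h F
  · rw [ind_of hc]
    have h5 := nec_touch' (RJ x κ hx0 hκ) hδ hD hF hc
    rw [tf_one (by positivity)]
    refine le_trans ?_ h5
    have : (RJ x κ hx0 hκ).B = x + 3 * κ / 4 := rfl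
    rw [this]
    linarith
  · rw [ind_not_of hc]
    exact (tf_range _ _ _).1

theorem RJ_up {q : ℝ} (h0 : 0 ≤ q) (h1 : q ≤ 1) :
    Ex (fun _ => q) ((RJ x κ hx0 hκ).dm δ).edges
        (fun F => tf (x + κ / 2) (κ / 8) ⟨(RJ x κ hx0 hκ).curve δ F⟩) ≤
      hh q (⌊x / δ⌋₊ : ℤ) ((RJ x κ hx0 hκ).dm δ).h := by
  obtain ⟨hD, -, hr, hw, -, hlow, -, -, -, h50⟩ := RJ_facts hx hx2 hκ hδ hδκ hx0
  set D := (RJ x κ hx0 hκ).dm δ with hDdef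
  have h3 : Pr (fun _ => q) D.edges (LRc 0 (⌊x / δ⌋₊ : ℤ) 0 D.h) =
      hh q ((⌊x / δ⌋₊ : ℤ) - 0) (D.h - 0) := by
    apply pr_LRc
    refine LRE_subset_RE.trans (RE_subset ?_ hr le_rfl le_rfl)
    exact hD.l_neg.le
  rw [sub_zero, sub_zero] at h3
  rw [← h3]
  apply Ex_mono (okn h0 h1)
  intro F hF
  refine tf_le (by positivity) fun h => ?_
  refine nec_cross' (RJ x κ hx0 hκ) ?_ hδ hD hF h ?_ ?_
  · have : (RJ x κ hx0 hκ).t = -(κ / 16) := rfl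
    rw [this]
    linarith
  · have : (0:ℝ) < (⌊x / δ⌋₊ : ℝ) := by linarith
    exact_mod_cast this
  · exact_mod_cast hw

/-- the gap -/
theorem RJ_gap {c lam : ℝ} (hc : 0 < c) (hlam : 0 < lam) (hlam1 : lam ≤ 1)
    (hlow : ∀ w h : ℕ, 1 ≤ w → 1 ≤ h → w ≤ 4 * h → h ≤ 4 * w → ∀ q : ℝ, 0 ≤ q → q ≤ 1 →
      c * min 1 (|q - 1/2| * (w:ℝ) ^ (3/4 : ℝ)) ≤ |hh q w h - hh (1/2) w h|)
    {q : ℝ} (h0 : 0 ≤ q) (h1 : q ≤ 1) (hq : lam ≤ |q - 1/2| * δ ^ (-(3/4 : ℝ)))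
    (hdrop : hh (1/2) (⌊x / δ⌋₊ : ℤ) ((RJ x κ hx0 hκ).dm δ).h -
      hh (1/2) (⌊(x + κ) / δ⌋₊ : ℤ) ((RJ x κ hx0 hκ).dm δ).h ≤ c * lam / 4) :
    c * lam / 4 ≤ |Ex (fun _ => q) ((RJ x κ hx0 hκ).dm δ).edges
        (fun F => tf (x + κ / 2) (κ / 8) ⟨(RJ x κ hx0 hκ).curve δ F⟩) -
      E ((RJ x κ hx0 hκ).dm δ).edges
        (fun F => tf (x + κ / 2) (κ / 8) ⟨(RJ x κ hx0 hκ).curve δ F⟩)| := by
  obtain ⟨hD, -, -, -, ⟨h, hh1, hh2, hh3, hh4⟩, w1, w2, w3, w4, h50⟩ :=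
    RJ_facts hx hx2 hκ hδ hδκ hx0
  have a1 := RJ_low hx hx2 hκ hδ hδκ hx0 h0 h1
  have a2 := RJ_up hx hx2 hκ hδ hδκ hx0 h0 h1
  have a3 := RJ_low hx hx2 hκ hδ hδκ hx0 (q := 1/2) (by norm_num) (by norm_num)
  have a4 := RJ_up hx hx2 hκ hδ hδκ hx0 (q := 1/2) (by norm_num) (by norm_num)
  have hgap : ∀ w : ℕ, 1 / δ - 1 ≤ (w:ℝ) → (w:ℝ) ≤ 2 / δ →
      c * lam / 2 ≤ |hh q w h - hh (1/2) w h| := by
    intro w hw1 hw2
    have e2 : 2 / δ = 2 * (1 / δ) := by ring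
    have g1 : (1:ℝ) ≤ w := by linarith
    have g2 : (w:ℝ) ≤ 4 * h := by linarith
    have g3 : (h:ℝ) ≤ 4 * w := by linarith
    refine le_trans ?_ (hlow w h (by exact_mod_cast g1) hh2 (by exact_mod_cast g2)
      (by exact_mod_cast g3) q h0 h1)
    rw [mul_div_assoc]
    apply mul_le_mul_of_nonneg_left _ hc.le
    apply le_min (by linarith)
    have g4 : (1/2 : ℝ) * (1 / δ) ≤ w := by linarith
    have g5 : ((1/2 : ℝ) * (1 / δ)) ^ (3/4 : ℝ) ≤ (w:ℝ) ^ (3/4 : ℝ) :=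
      Real.rpow_le_rpow (by positivity) g4 (by norm_num)
    have g6 : (1/2 : ℝ) * δ ^ (-(3/4 : ℝ)) ≤ ((1/2 : ℝ) * (1 / δ)) ^ (3/4 : ℝ) := by
      rw [Real.mul_rpow (by norm_num) (by positivity), one_div δ, Real.inv_rpow hδ.le,
        ← Real.rpow_neg hδ.le]
      apply mul_le_mul_of_nonneg_right _ (Real.rpow_nonneg hδ.le _)
      calc (1/2 : ℝ) = (1/2 : ℝ) ^ (1:ℝ) := (Real.rpow_one _).symm
        _ ≤ (1/2 : ℝ) ^ (3/4 : ℝ) :=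
          Real.rpow_le_rpow_of_exponent_ge (by norm_num) (by norm_num) (by norm_num)
    have g7 := mul_le_mul_of_nonneg_left (g6.trans g5) (abs_nonneg (q - 1/2))
    calc lam / 2 ≤ |q - 1/2| * (1/2 * δ ^ (-(3/4 : ℝ))) := by linarith
      _ ≤ _ := g7
  have b1 := hgap _ w1 w3
  have b2 := hgap _ w2 w4
  rw [← hh1] at a1 a2 a3 a4 hdrop
  rcases le_total (1/2) q with hq2 | hq2
  · have m1 := hh_mono_param (p := 1/2) (q := q) (by norm_num) hq2 h1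
      (⌊(x + κ) / δ⌋₊ : ℤ) h
    rw [abs_of_nonneg (sub_nonneg.2 m1)] at b2
    refine le_trans ?_ (le_abs_self _)
    have : E ((RJ x κ hx0 hκ).dm δ).edges
        (fun F => tf (x + κ / 2) (κ / 8) ⟨(RJ x κ hx0 hκ).curve δ F⟩) =
      Ex (fun _ => (1/2:ℝ)) ((RJ x κ hx0 hκ).dm δ).edges
        (fun F => tf (x + κ / 2) (κ / 8) ⟨(RJ x κ hx0 hκ).curve δ F⟩) := rfl
    rw [this]
    linarith
  · have m1 := hh_mono_param (p := q) (q := 1/2) h0 hq2 (by norm_num) (⌊x / δ⌋₊ : ℤ) h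
    rw [abs_sub_comm, abs_of_nonneg (sub_nonneg.2 m1)] at b1
    rw [abs_sub_comm]
    refine le_trans ?_ (le_abs_self _)
    have : E ((RJ x κ hx0 hκ).dm δ).edges
        (fun F => tf (x + κ / 2) (κ / 8) ⟨(RJ x κ hx0 hκ).curve δ F⟩) =
      Ex (fun _ => (1/2:ℝ)) ((RJ x κ hx0 hκ).dm δ).edges
        (fun F => tf (x + κ / 2) (κ / 8) ⟨(RJ x κ hx0 hκ).curve δ F⟩) := rfl
    rw [this]
    linarith

end

/-- pigeonhole -/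
theorem pigeon (g : ℕ → ℝ) {J : ℕ} (hJ : 0 < J) (h : g 0 - g J ≤ 1) :
    ∃ j < J, g j - g (j + 1) ≤ 1 / J := by
  by_contra hc
  push Not at hc
  have h1 : ∑ j ∈ range J, (g j - g (j + 1)) = g 0 - g J := Finset.sum_range_sub' g J
  have hJ0 : (0:ℝ) < J := by exact_mod_cast hJ
  have h2 : ∑ j ∈ range J, (1 / (J:ℝ)) < ∑ j ∈ range J, (g j - g (j + 1)) := by
    apply Finset.sum_lt_sum_of_nonempty
    · exact Finset.nonempty_range_iff.2 hJ.ne'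
    · intro j hj
      exact hc j (Finset.mem_range.1 hj)
  rw [Finset.sum_const, Finset.card_range, nsmul_eq_mul, mul_one_div_cancel hJ0.ne', h1] at h2
  linarith

/-- **The window is optimal.** -/
theorem nec (hL : S_LOW) (δ p : ℕ → ℝ) (hδ : ∀ n, 0 < δ n) (hδ0 : Tendsto δ atTop (𝓝 0))
    (hp : ∀ n, 0 ≤ p n ∧ p n ≤ 1)
    (h : ∀ (R : Rect) (f : H342L.Curve → ℝ), (∃ K : ℝ, ∀ x y, |f x - f y| ≤ K * dist x y) →
      (∀ x, 0 ≤ f x ∧ f x ≤ 1) →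
      Tendsto (fun n => Ex (fun _ => p n) (R.dm (δ n)).edges (fun F => f ⟨R.curve (δ n) F⟩) -
        E (R.dm (δ n)).edges (fun F => f ⟨R.curve (δ n) F⟩)) atTop (𝓝 0)) :
    Tendsto (fun n => |p n - 1/2| * δ n ^ (-(3/4 : ℝ))) atTop (𝓝 0) := by
  obtain ⟨c, hc, hlow⟩ := hL 4 (by norm_num)
  by_contra hcon
  rw [Metric.tendsto_atTop] at hcon
  push Not at hcon
  obtain ⟨lam', hlam', hfr⟩ := hcon
  obtain ⟨lam, hlamdef⟩ : ∃ lam, lam = min lam' 1 := ⟨_, rfl⟩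
  have hlam : 0 < lam := hlamdef ▸ lt_min hlam' one_pos
  have hlam1 : lam ≤ 1 := hlamdef ▸ min_le_right _ _
  have hfr2 : ∀ N, ∃ n ≥ N, lam ≤ |p n - 1/2| * δ n ^ (-(3/4 : ℝ)) := by
    intro N
    obtain ⟨n, hn, h1⟩ := hfr N
    refine ⟨n, hn, ?_⟩
    rw [Real.dist_eq, sub_zero, abs_of_nonneg (by have := hδ n; positivity)] at h1
    exact (hlamdef ▸ min_le_left _ _ : lam ≤ lam').trans h1
  obtain ⟨J, hJ⟩ := exists_nat_gt (4 / (c * lam))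
  have hJr : (0:ℝ) < J := lt_trans (by positivity) hJ
  have hJ0 : 0 < J := by exact_mod_cast hJr
  have hJ1 : 1 / (J:ℝ) ≤ c * lam / 4 := by
    rw [div_lt_iff₀ (by positivity)] at hJ
    rw [div_le_div_iff₀ hJr (by norm_num)]
    linarith
  have hκ : (0:ℝ) < 1 / J := by positivity
  have hxp : ∀ j : ℕ, (0:ℝ) < 1 + j / J := fun j => by positivity
  -- along the sequence the change is not small for some `j`
  have hev : ∀ j : ℕ, j < J → ∀ᶠ n in atTop, |Ex (fun _ => p n)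
      ((RJ (1 + j / J) (1 / J) (hxp j) hκ).dm (δ n)).edges
        (fun F => tf ((1 + j / J) + 1 / J / 2) (1 / J / 8)
          ⟨(RJ (1 + j / J) (1 / J) (hxp j) hκ).curve (δ n) F⟩) -
      E ((RJ (1 + j / J) (1 / J) (hxp j) hκ).dm (δ n)).edges
        (fun F => tf ((1 + j / J) + 1 / J / 2) (1 / J / 8)
          ⟨(RJ (1 + j / J) (1 / J) (hxp j) hκ).curve (δ n) F⟩)| < c * lam / 4 := by
    intro j _
    have h1 := h (RJ (1 + j / J) (1 / J) (hxp j) hκ) (tf ((1 + j / J) + 1 / J / 2) (1 / J / 8))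
      ⟨_, tf_lip (by positivity)⟩ (tf_range _ _)
    have h2 := h1.abs
    rw [abs_zero] at h2
    exact h2.eventually_lt_const (by positivity)
  have hev2 : ∀ᶠ n in atTop, ∀ j : Fin J, |Ex (fun _ => p n)
      ((RJ (1 + (j:ℕ) / J) (1 / J) (hxp j) hκ).dm (δ n)).edges
        (fun F => tf ((1 + (j:ℕ) / J) + 1 / J / 2) (1 / J / 8)
          ⟨(RJ (1 + (j:ℕ) / J) (1 / J) (hxp j) hκ).curve (δ n) F⟩) -
      E ((RJ (1 + (j:ℕ) / J) (1 / J) (hxp j) hκ).dm (δ n)).edges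
        (fun F => tf ((1 + (j:ℕ) / J) + 1 / J / 2) (1 / J / 8)
          ⟨(RJ (1 + (j:ℕ) / J) (1 / J) (hxp j) hκ).curve (δ n) F⟩)| < c * lam / 4 :=
    eventually_all.2 fun j => hev j j.2
  have hev3 : ∀ᶠ n in atTop, 100 * δ n ≤ 1 / (J:ℝ) := by
    filter_upwards [hδ0.eventually_lt_const (show (0:ℝ) < 1 / J / 100 by positivity)] with n hn
    linarith
  obtain ⟨N, hN⟩ := eventually_atTop.1 (hev2.and hev3)
  obtain ⟨n, hn, hlamn⟩ := hfr2 N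
  obtain ⟨hA, hB⟩ := hN n hn
  obtain ⟨j, hj, hdrop⟩ := pigeon (fun i => hh (1/2) (⌊(1 + (i:ℝ) / J) / δ n⌋₊ : ℤ)
    (⌈1 / δ n⌉ - 2)) hJ0 (by
      have g1 := hh_le_one (q := 1/2) (by norm_num) (by norm_num)
        (⌊(1 + ((0:ℕ):ℝ) / J) / δ n⌋₊ : ℤ) (⌈1 / δ n⌉ - 2)
      have g2 := hh_nonneg (q := 1/2) (by norm_num) (by norm_num)
        (⌊(1 + (J:ℝ) / J) / δ n⌋₊ : ℤ) (⌈1 / δ n⌉ - 2)
      linarith)
  have hjr : (j:ℝ) + 1 ≤ J := by exact_mod_cast hj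
  have e1 : 1 + (j:ℝ) / J + 1 / J = 1 + ((j + 1 : ℕ) : ℝ) / J := by
    push_cast
    ring
  have hx2 : 1 + (j:ℝ) / J + 1 / J ≤ 2 := by
    have : (j:ℝ) / J + 1 / J ≤ 1 := by
      rw [← add_div, div_le_one hJr]
      exact hjr
    linarith
  have h2 := RJ_gap (x := 1 + (j:ℝ) / J) (κ := 1 / J) (δ := δ n) (by
      have : 0 ≤ (j:ℝ) / J := by positivity
      linarith) hx2 hκ (hδ n) hB (hxp j) hc hlam hlam1 hlow (hp n).1 (hp n).2 hlamn (by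
      have d3 : ((RJ (1 + (j:ℝ) / J) (1 / J) (hxp j) hκ).dm (δ n)).h = ⌈1 / δ n⌉ - 2 := rfl
      rw [d3, e1]
      exact hdrop.trans hJ1)
  have h3 := hA ⟨j, hj⟩
  exact absurd h3 (not_lt.2 h2)

end Pool.Agent.Zk36.CO
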