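import Pool.Agent.Zk36.CO.DET

/-!
# The exploration path outside of the near-critical window: separation at the complementary arc
-/

set_option autoImplicit false

namespace Pool.Agent.Zk36.CO

open H974 Finset H342P H984P H984N

theorem b2_step {D : Dm} {g : Vtx} {f : Vtx} {n : ℤ} (h1 : g = f → idx D g = n)
    (h2 : idx D g = n → g = f) :
    b2 (idx D g < n + 1) = b2 (idx D g < n) + b2 (g = f) := by
  by_cases h : g = f
  · have h3 := h1 h
    rw [b2_of (show idx D g < n + 1 by omega), b2_not_of (show ¬ idx D g < n by omega), b2_of h,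
      zero_add]
  · have h3 : idx D g ≠ n := fun h4 => h (h2 h4)
    rw [b2_not_of h, add_zero]
    apply b2_congr
    omega

theorem t_SEP : S_SEP := by
  intro D hD F hF g hg g' hg' j hj0 hjL hclu hlt hle hDC
  obtain ⟨Z, hZ1, hZ2⟩ := chain_of_dreach hDC
  have hD' := hD
  have og := idx_outer hD hg
  have og' := idx_outer hD hg'
  obtain ⟨h1, h2, h3, h4, h5⟩ := hD
  have hZout : ∀ e, e ∉ D.edges → Z e = 0 := by
    intro e he
    by_contra h
    exact he (Finset.mem_coe.1 (hZ1 e h).1)
  have hZcfg : ∀ e ∈ D.cfg F, Z e = 0 := by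
    intro e he
    by_contra h
    exact (hZ1 e h).2 he
  have hg2 := hg
  have hg2' := hg'
  unfold Dm.outer at hg2 hg2'
  simp only [Set.mem_ofPred_eq] at hg2 hg2'
  have hcyc : ∀ x y, D.l ≤ x → x < D.r → 0 ≤ y → y < D.h → bd Z x y = 0 := by
    intro x1 y1 a1 a2 a3 a4
    rw [hZ2, b2_not_of, b2_not_of, add_zero]
    · rintro rfl
      simp only at hg2'
      omega
    · rintro rfl
      simp only at hg2
      omega
  set s : ℤ → ℤ → ZMod 2 := fun x y => ∑ i ∈ Finset.Ico D.l x, Z (i, y, true) with hs
  have sH : ∀ x y, D.l ≤ x → s (x + 1) y = s x y + Z (x, y, true) := by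
    intro x y hx
    simp only [hs]
    rw [sum_Ico_int_succ hx]
  have sV : ∀ (n : ℕ) (y : ℤ), D.l + n ≤ D.r → 0 ≤ y → y < D.h →
      s (D.l + n) (y + 1) + s (D.l + n) y = Z (D.l + n, y, false) := by
    intro n y hn hc hd
    induction n with
    | zero =>
      have : Z (D.l + ((0:ℕ):ℤ), y, false) = 0 := by
        apply hZcfg
        refine Or.inr (Or.inr (Or.inl ⟨rfl, ?_, hc, hd⟩))
        simp
      rw [this]
      simp [hs]
    | succ n ih =>
      push_cast at hn
      have e1 : D.l + ((n + 1 : ℕ) : ℤ) = (D.l + n) + 1 := by push_cast; ring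
      rw [e1, sH _ _ (by omega), sH _ _ (by omega)]
      have h3 := hcyc (D.l + n) y (by omega) (by omega) hc hd
      unfold bd at h3
      have h5 := zmod2_add_self (Z (D.l + n + 1, y, false))
      linear_combination ih (by omega) + h3 - h5
  have sV' : ∀ x y, D.l ≤ x → x ≤ D.r → 0 ≤ y → y < D.h →
      s x (y + 1) = s x y + Z (x, y, false) := by
    intro x y hx hx' hc hd
    obtain ⟨n, hn⟩ := Int.eq_ofNat_of_zero_le (sub_nonneg.mpr hx)
    have e1 : x = D.l + n := by omega
    have h3 := sV n y (by omega) hc hd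
    rw [← e1] at h3
    have h4 := zmod2_add_self (s x y)
    linear_combination h3 - h4
  have hpath : ∀ w : Vtx, Reach (D.cfg F) (0, 0) w → s w.1 w.2 = s 0 0 := by
    intro w hw
    induction hw with
    | refl => rfl
    | @tail w' w'' _ hstep ih =>
      obtain ⟨e, he, hcase⟩ := hstep
      have hZe := hZcfg _ he
      have hin := clu_cfg_in hD' hF he
      obtain ⟨x0, y0, bo⟩ := e
      unfold inR at hin
      cases bo
      · simp only [src_mk, tgt_false] at hcase hin
        have h3 := sV' x0 y0 (by omega) (by omega) (by omega) (by omega)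
        rw [hZe, add_zero] at h3
        rcases hcase with ⟨h4, h5⟩ | ⟨h4, h5⟩
        · rw [← h4] at ih; rw [← h5]; simpa [h3] using ih
        · rw [← h5] at ih; rw [← h4]; simpa [h3] using ih
      · simp only [src_mk, tgt_true] at hcase hin
        have h3 := sH x0 y0 (by omega)
        rw [hZe, add_zero] at h3
        rcases hcase with ⟨h4, h5⟩ | ⟨h4, h5⟩
        · rw [← h4] at ih; rw [← h5]; simpa [h3] using ih
        · rw [← h5] at ih; rw [← h4]; simpa [h3] using ih
  have hst : s D.t D.h = 0 := by
    simp only [hs]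
    apply Finset.sum_eq_zero
    intro i hi
    rw [Finset.mem_Ico] at hi
    exact hZcfg _ (Or.inr (Or.inl ⟨rfl, rfl, hi.1, hi.2⟩))
  have hs0 : s 0 0 = 0 := by
    rw [← hpath _ (clu_start hD' F)]
    exact hst
  have hsj : s (av D j).1 (av D j).2 = 0 := by
    rw [hpath _ hclu, hs0]
  -- corners
  have hnr : ∀ y, (y = D.h ∨ y = -1) → bd Z D.r y = 0 := by
    intro y hy
    unfold bd
    rw [hZout (D.r, y, true), hZout (D.r, y + 1, true), hZout (D.r, y, false),
      hZout (D.r + 1, y, false)]
    · ring
    · unfold Dm.edges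
      rw [mem_RE_false]
      omega
    · unfold Dm.edges
      rw [mem_RE_false]
      omega
    · unfold Dm.edges
      rw [mem_RE_true]
      omega
    · unfold Dm.edges
      rw [mem_RE_true]
      omega
  have hne : g ≠ g' := by
    rintro rfl
    omega
  have hcor : ∀ y, (y = D.h ∨ y = -1) → g ≠ (D.r, y) ∧ g' ≠ (D.r, y) := by
    intro y hy
    have h6 := hnr y hy
    rw [hZ2] at h6
    constructor
    · intro h7
      have h8 : ¬ g' = (D.r, y) := fun h9 => hne (h7.trans h9.symm)
      rw [b2_of h7, b2_not_of h8, add_zero] at h6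
      exact one_ne_zero h6
    · intro h7
      have h8 : ¬ g = (D.r, y) := fun h9 => hne (h9.trans h7.symm)
      rw [b2_of h7, b2_not_of h8, zero_add] at h6
      exact one_ne_zero h6
  have hg3 : g ≠ (D.r, D.h) ∧ g ≠ (D.r, -1) := ⟨(hcor _ (Or.inl rfl)).1, (hcor _ (Or.inr rfl)).1⟩
  have hg3' : g' ≠ (D.r, D.h) ∧ g' ≠ (D.r, -1) :=
    ⟨(hcor _ (Or.inl rfl)).2, (hcor _ (Or.inr rfl)).2⟩
  have inj : ∀ a : Vtx, a ∈ D.outer → a ≠ (D.r, D.h) ∧ a ≠ (D.r, -1) → ∀ n : ℤ,
      (n < D.r - D.t → idx D a = n → a = (D.t + n, D.h)) ∧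
      (D.r - D.t ≤ n → n < (D.r - D.t) + D.h → idx D a = n →
        a = (D.r, D.h - (n - (D.r - D.t)) - 1)) ∧
      ((D.r - D.t) + D.h ≤ n → idx D a = n →
        a = (D.r - (n - (D.r - D.t) - D.h) - 1, -1)) := by
    rintro ⟨x, y⟩ ha hc n
    unfold Dm.outer at ha
    simp only [Set.mem_ofPred_eq] at ha
    simp only [ne_eq, Prod.mk.injEq, not_and] at hc
    unfold idx
    simp only [Prod.mk.injEq]
    refine ⟨?_, ?_, ?_⟩ <;> split_ifs <;> omega
  have key : ∀ n : ℕ, (n : ℤ) ≤ LR D →
      s (av D n).1 (av D n).2 = b2 (idx D g < n) + b2 (idx D g' < n) := by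
    intro n
    induction n with
    | zero =>
      intro _
      have e : av D ((0:ℕ):ℤ) = (D.t, D.h) := by
        rw [av_top D (by push_cast; omega)]
        simp
      rw [e, b2_not_of (by push_cast; omega), b2_not_of (by push_cast; omega)]
      simpa using hst
    | succ n ih =>
      intro hn
      push_cast at hn ⊢
      have ih' := ih (by omega)
      obtain ⟨c1, c2, c3⟩ := inj g hg hg3 n
      obtain ⟨c1', c2', c3'⟩ := inj g' hg' hg3' n
      rcases lt_or_ge (n : ℤ) (D.r - D.t) with hA | hA
      · rw [av_top D (by omega)] at ih' ⊢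
        have e1 : D.t + ((n:ℤ) + 1) = (D.t + n) + 1 := by ring
        rw [e1]
        simp only at ih' ⊢
        rw [sH _ _ (by omega), ih']
        have hb := hZ2 (D.t + n) D.h
        unfold bd at hb
        rw [hZout (D.t + n, D.h + 1, true) (by unfold Dm.edges; rw [mem_RE_true]; omega),
          hZout (D.t + n, D.h, false) (by unfold Dm.edges; rw [mem_RE_false]; omega),
          hZout (D.t + n + 1, D.h, false) (by unfold Dm.edges; rw [mem_RE_false]; omega)] at hb
        simp only [add_zero] at hb
        rw [hb, b2_step (f := (D.t + (n:ℤ), D.h)) (fun h => by rw [h, idx_top]; ring) (c1 hA),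
          b2_step (f := (D.t + (n:ℤ), D.h)) (fun h => by rw [h, idx_top]; ring) (c1' hA)]
        ring
      · rcases lt_or_ge (n : ℤ) ((D.r - D.t) + D.h) with hB | hB
        · rw [av_right D hA (by omega)] at ih'
          rw [av_right D (by omega) (by omega)]
          obtain ⟨y, hy⟩ : ∃ y, y = D.h - ((n:ℤ) - (D.r - D.t)) - 1 := ⟨_, rfl⟩
          have e1 : D.h - ((n:ℤ) - (D.r - D.t)) = y + 1 := by omega
          have e2 : D.h - ((n:ℤ) + 1 - (D.r - D.t)) = y := by omega
          rw [e1] at ih'
          rw [e2]
          simp only at ih' ⊢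
          have e3 := sV' D.r y (by omega) le_rfl (by omega) (by omega)
          have hb := hZ2 D.r y
          unfold bd at hb
          rw [hZout (D.r, y, true) (by unfold Dm.edges; rw [mem_RE_true]; omega),
            hZout (D.r, y + 1, true) (by unfold Dm.edges; rw [mem_RE_true]; omega),
            hZout (D.r + 1, y, false) (by unfold Dm.edges; rw [mem_RE_false]; omega)] at hb
          simp only [add_zero, zero_add] at hb
          have e4 : idx D (D.r, y) = n := by
            rw [idx_right D (by omega)]
            omega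
          rw [b2_step (f := (D.r, y)) (fun h => by rw [h, e4]) (fun h => by
              rw [c2 hA hB h, ← hy]),
            b2_step (f := (D.r, y)) (fun h => by rw [h, e4]) (fun h => by
              rw [c2' hA hB h, ← hy])]
          have e5 := zmod2_add_self (Z (D.r, y, false))
          linear_combination ih' - e3 + hb - e5
        · rw [av_bot D h3.le hB] at ih'
          rw [av_bot D h3.le (by omega)]
          obtain ⟨x, hx⟩ : ∃ x, x = D.r - ((n:ℤ) - (D.r - D.t) - D.h) - 1 := ⟨_, rfl⟩
          have e1 : D.r - ((n:ℤ) - (D.r - D.t) - D.h) = x + 1 := by omega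
          have e2 : D.r - ((n:ℤ) + 1 - (D.r - D.t) - D.h) = x := by omega
          rw [e1] at ih'
          rw [e2]
          simp only at ih' ⊢
          unfold LR at hn
          have e3 := sH x 0 (by omega)
          have hb := hZ2 x (-1)
          unfold bd at hb
          rw [hZout (x, -1, true) (by unfold Dm.edges; rw [mem_RE_true]; omega),
            hZout (x, -1, false) (by unfold Dm.edges; rw [mem_RE_false]; omega),
            hZout (x + 1, -1, false) (by unfold Dm.edges; rw [mem_RE_false]; omega)] at hb
          simp only [add_zero, zero_add, neg_add_cancel] at hb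
          have e4 : idx D (x, -1) = n := by
            rw [idx_bot hD' (by omega)]
            omega
          rw [b2_step (f := (x, -1)) (fun h => by rw [h, e4]) (fun h => by
              rw [c3 hB h, ← hx]),
            b2_step (f := (x, -1)) (fun h => by rw [h, e4]) (fun h => by
              rw [c3' hB h, ← hx])]
          have e5 := zmod2_add_self (Z (x, 0, true))
          linear_combination ih' - e3 + hb - e5
  obtain ⟨n, hn⟩ := Int.eq_ofNat_of_zero_le hj0
  have hfin := key n (by omega)
  rw [← hn, hsj, b2_of hlt, b2_not_of (by omega), add_zero] at hfin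
  exact zero_ne_one hfin

end Pool.Agent.Zk36.CO
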